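import Pool.Agent.Q215.SR.Stm

/-!
Closure properties of the Borel classes of a Polish space.
-/

set_option autoImplicit false

open Set Topology Filter Ordinal

namespace Pool.Agent.Q215.SR

variable {X : Type} [TopologicalSpace X]

lemma one_le_of_sigma {ξ : Ordinal.{0}} {A : Set X} (h : SigmaZero ξ A) : 1 ≤ ξ := by
  cases h with
  | base => exact le_rfl
  | union _ h => exact h.le

lemma isOpen_of_sigma_one {A : Set X} (h : SigmaZero 1 A) : IsOpen A := by
  generalize e : (1 : Ordinal.{0}) = ξ at h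
  cases h with
  | base U hU => exact hU
  | union _ hξ => exact absurd e hξ.ne

lemma sigma_decomp {ξ : Ordinal.{0}} (hξ : 1 < ξ) {A : Set X} (h : SigmaZero ξ A) :
    ∃ (η : ℕ → Ordinal.{0}) (B : ℕ → Set X), (∀ n, 1 ≤ η n) ∧ (∀ n, η n < ξ) ∧
      (∀ n, SigmaZero (η n) (B n)ᶜ) ∧ A = ⋃ n, B n := by
  cases h with
  | base U hU => exact absurd hξ (lt_irrefl _)
  | union _ hξ η B h1 h2 h3 => exact ⟨η, B, h1, h2, h3, rfl⟩

lemma sigma_compl_lt {η ξ : Ordinal.{0}} (h : η < ξ) {A : Set X} (hA : SigmaZero η Aᶜ) :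
    SigmaZero ξ A := by
  have h1 := one_le_of_sigma hA
  have := SigmaZero.union ξ (lt_of_le_of_lt h1 h) (fun _ => η) (fun _ => A) (fun _ => h1)
    (fun _ => h) (fun _ => hA)
  rwa [iUnion_const] at this

lemma sigma_preimage {Y : Type} [TopologicalSpace Y] {g : Y → X} (hg : Continuous g)
    {ξ : Ordinal.{0}} {A : Set X} (hA : SigmaZero ξ A) : SigmaZero ξ (g ⁻¹' A) := by
  induction hA with
  | base U hU => exact SigmaZero.base _ (hU.preimage hg)
  | union ξ hξ η A h1 h2 hA ih =>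
    rw [preimage_iUnion]
    exact SigmaZero.union ξ hξ η _ h1 h2 fun n => by
      rw [← preimage_compl]; exact ih n

lemma sigma_meas [MeasurableSpace X] [BorelSpace X] {ξ : Ordinal.{0}} {A : Set X}
    (hA : SigmaZero ξ A) : MeasurableSet A := by
  induction hA with
  | base U hU => exact hU.measurableSet
  | union ξ hξ η A h1 h2 hA ih =>
    exact MeasurableSet.iUnion fun n => MeasurableSet.compl_iff.1 (ih n)

variable [PolishSpace X]

lemma sigma_mono {η ξ : Ordinal.{0}} (h : η ≤ ξ) {A : Set X} (hA : SigmaZero η A) :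
    SigmaZero ξ A := by
  rcases h.lt_or_eq with hlt | rfl
  · cases hA with
    | base U hU =>
      let _ := TopologicalSpace.metrizableSpaceMetric X
      obtain ⟨F, h1, h2, h3, -⟩ := hU.exists_iUnion_isClosed
      rw [← h3]
      exact SigmaZero.union ξ hlt (fun _ => 1) F (fun _ => le_rfl) (fun _ => hlt)
        (fun n => SigmaZero.base _ (h1 n).isOpen_compl)
    | union _ h1 ζ B h2 h3 h4 =>
      exact SigmaZero.union ξ (h1.trans hlt) ζ B h2 (fun n => (h3 n).trans hlt) h4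
  · exact hA

lemma sigma_iUnion {ξ : Ordinal.{0}} {A : ℕ → Set X} (hA : ∀ n, SigmaZero ξ (A n)) :
    SigmaZero ξ (⋃ n, A n) := by
  have h1 := one_le_of_sigma (hA 0)
  rcases h1.lt_or_eq with hlt | rfl
  · choose η B g1 g2 g3 g4 using fun n => sigma_decomp hlt (hA n)
    have e : (⋃ n, A n) = ⋃ k : ℕ, B (Nat.unpair k).1 (Nat.unpair k).2 := by
      ext x
      simp only [mem_iUnion]
      constructor
      · rintro ⟨n, hn⟩
        rw [g4 n] at hn
        obtain ⟨m, hm⟩ := mem_iUnion.1 hn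
        exact ⟨Nat.pair n m, by rw [Nat.unpair_pair]; exact hm⟩
      · rintro ⟨k, hk⟩
        exact ⟨(Nat.unpair k).1, by rw [g4]; exact mem_iUnion.2 ⟨_, hk⟩⟩
    rw [e]
    exact SigmaZero.union ξ hlt (fun k => η (Nat.unpair k).1 (Nat.unpair k).2) _
      (fun k => g1 _ _) (fun k => g2 _ _) (fun k => g3 _ _)
  · exact SigmaZero.base _ (isOpen_iUnion fun n => isOpen_of_sigma_one (hA n))

lemma sigma_union {ξ : Ordinal.{0}} {A B : Set X} (hA : SigmaZero ξ A) (hB : SigmaZero ξ B) :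
    SigmaZero ξ (A ∪ B) := by
  have e : A ∪ B = ⋃ n : ℕ, (if n = 0 then A else B) := by
    ext x
    simp only [mem_union, mem_iUnion]
    constructor
    · rintro (h | h)
      · exact ⟨0, by rw [if_pos rfl]; exact h⟩
      · exact ⟨1, by rw [if_neg one_ne_zero]; exact h⟩
    · rintro ⟨n, hn⟩
      split_ifs at hn
      · exact Or.inl hn
      · exact Or.inr hn
  rw [e]
  exact sigma_iUnion fun n => by split_ifs <;> assumption

lemma sigma_inter {ξ : Ordinal.{0}} {A B : Set X} (hA : SigmaZero ξ A) (hB : SigmaZero ξ B) :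
    SigmaZero ξ (A ∩ B) := by
  have h1 := one_le_of_sigma hA
  rcases h1.lt_or_eq with hlt | rfl
  · obtain ⟨η, C, c1, c2, c3, rfl⟩ := sigma_decomp hlt hA
    obtain ⟨ζ, D, d1, d2, d3, rfl⟩ := sigma_decomp hlt hB
    have e : (⋃ n, C n) ∩ (⋃ n, D n) =
        ⋃ n : ℕ, (C (Nat.unpair n).1 ∩ D (Nat.unpair n).2) := by
      ext x
      simp only [mem_inter_iff, mem_iUnion]
      constructor
      · rintro ⟨⟨n, hn⟩, m, hm⟩
        exact ⟨Nat.pair n m, by rw [Nat.unpair_pair]; exact ⟨hn, hm⟩⟩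
      · rintro ⟨k, h1, h2⟩
        exact ⟨⟨_, h1⟩, _, h2⟩
    rw [e]
    refine sigma_iUnion fun n => ?_
    refine sigma_compl_lt (η := max (η (Nat.unpair n).1) (ζ (Nat.unpair n).2))
      (max_lt (c2 _) (d2 _)) ?_
    rw [compl_inter]
    exact sigma_union (sigma_mono (le_max_left _ _) (c3 _))
      (sigma_mono (le_max_right _ _) (d3 _))
  · exact SigmaZero.base _ ((isOpen_of_sigma_one hA).inter (isOpen_of_sigma_one hB))

theorem t_cls : S_cls :=
  ⟨fun _ _ _ _ _ _ h hA => sigma_mono h hA, fun _ _ _ _ _ _ h hA => sigma_compl_lt h hA,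
    fun _ _ _ _ _ hA => sigma_iUnion hA, fun _ _ _ _ _ _ hA hB => sigma_inter hA hB⟩

lemma sigma_open {ξ : Ordinal.{0}} (hξ : 1 ≤ ξ) {U : Set X} (hU : IsOpen U) : SigmaZero ξ U :=
  sigma_mono hξ (SigmaZero.base U hU)

lemma sigma_biUnion {ι : Type 1} {ξ : Ordinal.{0}} (hξ : 1 ≤ ξ) {I : Set ι}
    (hI : I.Countable) {A : ι → Set X} (hA : ∀ i ∈ I, SigmaZero ξ (A i)) :
    SigmaZero ξ (⋃ i ∈ I, A i) := by
  rcases I.eq_empty_or_nonempty with rfl | hne
  · rw [biUnion_empty]
    exact sigma_open hξ isOpen_empty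
  · obtain ⟨e, he⟩ := hI.exists_eq_range hne
    rw [he, biUnion_range]
    exact sigma_iUnion fun n => hA _ (by rw [he]; exact mem_range_self n)

end Pool.Agent.Q215.SR
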