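import Mathlib

/-!
Definitions: the Borel classes, the separation rank `α_ξ` and ranks on the bounded Baire class `ξ`
functions on Polish spaces.
-/

set_option autoImplicit false

open Set Topology Filter Ordinal

namespace Pool.Agent.Q215.SR

/-- `SigmaZero ξ A`: the set `A` is `Σ⁰_ξ`. The set `A` is `Π⁰_ξ` if `SigmaZero ξ Aᶜ`. -/
inductive SigmaZero {X : Type} [TopologicalSpace X] : Ordinal.{0} → Set X → Prop
  | base (U : Set X) (hU : IsOpen U) : SigmaZero 1 U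
  | union (ξ : Ordinal.{0}) (hξ : 1 < ξ) (η : ℕ → Ordinal.{0}) (A : ℕ → Set X)
      (h1 : ∀ n, 1 ≤ η n) (h2 : ∀ n, η n < ξ) (hA : ∀ n, SigmaZero (η n) (A n)ᶜ) :
      SigmaZero ξ (⋃ n, A n)

/-- `F` is a continuous decreasing sequence of `Π⁰_ξ` sets of length `lam` with `F 0` the whole
space, continued by the empty set from `lam` on. -/
structure IsPiSeq {X : Type} [TopologicalSpace X] (ξ : Ordinal.{0}) (F : Ordinal.{0} → Set X)
    (lam : Ordinal.{0}) : Prop where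
  cls : ∀ η, SigmaZero ξ (F η)ᶜ
  anti : ∀ η θ, η ≤ θ → F θ ⊆ F η
  zero : F 0 = Set.univ
  cont : ∀ η, η < lam → Order.IsSuccLimit η → F η = ⋂ θ ∈ Set.Iio η, F θ
  last : Order.IsSuccLimit lam → ⋂ θ ∈ Set.Iio lam, F θ = ∅
  vanish : ∀ η, lam ≤ η → F η = ∅

/-- The transfinite difference: the union of `F η \ F (η + 1)` over the even `η < lam`. -/
def transDiff {X : Type} (F : Ordinal.{0} → Set X) (lam : Ordinal.{0}) : Set X :=
  {x | ∃ η, η < lam ∧ 2 ∣ η ∧ x ∈ F η ∧ x ∉ F (η + 1)}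

/-- The rank `α_ξ(B, C)`: the least length of a continuous decreasing sequence of `Π⁰_ξ` sets
whose transfinite difference contains `B` and is disjoint from `C`; it is `ω₁` if there is no such
sequence of countable length. -/
noncomputable def sepRank {X : Type} [TopologicalSpace X] (ξ : Ordinal.{0}) (B C : Set X) :
    Ordinal.{0} :=
  sInf {lam | lam = ω_ 1 ∨ ∃ F : Ordinal.{0} → Set X, IsPiSeq ξ F lam ∧ B ⊆ transDiff F lam ∧
    transDiff F lam ∩ C = ∅}

/-- The rank `α_ξ(f)`. -/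
noncomputable def alpha {X : Type} [TopologicalSpace X] (ξ : Ordinal.{0}) (f : X → ℝ) :
    Ordinal.{0} :=
  ⨆ pq : {pq : ℚ × ℚ // pq.1 < pq.2},
    sepRank ξ {x | f x ≤ (pq.1.1 : ℝ)} {x | (pq.1.2 : ℝ) ≤ f x}

/-- Bounded Baire class `ξ` functions: bounded, and preimages of open sets are `Σ⁰_{ξ+1}`. -/
def IsBddBaire {X : Type} [TopologicalSpace X] (ξ : Ordinal.{0}) (f : X → ℝ) : Prop :=
  (∃ M : ℝ, ∀ x, |f x| ≤ M) ∧ ∀ U : Set ℝ, IsOpen U → SigmaZero (ξ + 1) (f ⁻¹' U)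

/-- The relation `θ ≲ θ'`. -/
def LessSim (θ θ' : Ordinal.{0}) : Prop :=
  ∀ η : Ordinal.{0}, 1 ≤ η → η < ω_ 1 → θ' ≤ ω ^ η → θ ≤ ω ^ η

/-- The relation `θ ≈ θ'`. -/
def Approx (θ θ' : Ordinal.{0}) : Prop := LessSim θ θ' ∧ LessSim θ' θ

/-- A family of maps, one for each Polish space, assigning ordinals to real functions. -/
abbrev RankFamily : Type 1 :=
  ∀ (X : Type) [TopologicalSpace X] [PolishSpace X], (X → ℝ) → Ordinal.{0}

/-- A rank assigns countable ordinals to the bounded Baire class `ξ` functions. -/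
def IsRank (ξ : Ordinal.{0}) (ρ : RankFamily) : Prop :=
  ∀ (X : Type) [TopologicalSpace X] [PolishSpace X] (f : X → ℝ), IsBddBaire ξ f →
    ρ X f < ω_ 1

/-- Property 1: characteristic functions of `Δ⁰_{ξ+1}` sets. -/
def P1 (ξ : Ordinal.{0}) (ρ : RankFamily) : Prop :=
  ∀ (X : Type) [TopologicalSpace X] [PolishSpace X] (A : Set X), SigmaZero (ξ + 1) A →
    SigmaZero (ξ + 1) Aᶜ →
      Approx (ρ X (A.indicator (fun _ => (1 : ℝ)))) (alpha ξ (A.indicator (fun _ => (1 : ℝ))))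

/-- Property 2: essential linearity. -/
def P2 (ξ : Ordinal.{0}) (ρ : RankFamily) : Prop :=
  ∀ (X : Type) [TopologicalSpace X] [PolishSpace X] (f g : X → ℝ), IsBddBaire ξ f →
    IsBddBaire ξ g →
      (∀ c : ℝ, c ≠ 0 → Approx (ρ X (fun x => c * f x)) (ρ X f)) ∧
      LessSim (ρ X (fun x => f x + g x)) (max (ρ X f) (ρ X g))

/-- Property 3: uniform limits. -/
def P3 (ξ : Ordinal.{0}) (ρ : RankFamily) : Prop :=
  ∀ (X : Type) [TopologicalSpace X] [PolishSpace X] (f : X → ℝ) (g : ℕ → X → ℝ),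
    IsBddBaire ξ f → (∀ n, IsBddBaire ξ (g n)) → TendstoUniformly g f atTop →
      LessSim (ρ X f) (⨆ n, ρ X (g n))

/-- Property 4: compositions with Lipschitz functions. -/
def P4 (ξ : Ordinal.{0}) (ρ : RankFamily) : Prop :=
  ∀ (X : Type) [TopologicalSpace X] [PolishSpace X] (f : X → ℝ), IsBddBaire ξ f →
    ∀ h : ℝ → ℝ, (∃ K, LipschitzWith K h) → LessSim (ρ X (fun x => h (f x))) (ρ X f)

end Pool.Agent.Q215.SR
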