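import Pool.Agent.Q215.SR.Cls

/-!
A transfinite difference which is not the complement of a transfinite difference of the same
length (diagonalisation).
-/

set_option autoImplicit false

open Set Topology Filter Ordinal

namespace Pool.Agent.Q215.SR

lemma countable_Iio_of_lt {lam : Ordinal.{0}} (h : lam < ω_ 1) : (Set.Iio lam).Countable := by
  have h2 : lam.card < Cardinal.aleph 1 := by
    rw [← Cardinal.lt_ord, Cardinal.ord_aleph]
    exact h
  have h3 : lam.card ≤ Cardinal.aleph0 := by
    rw [← Cardinal.lt_aleph_one_iff] 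
    exact h2
  rw [← Cardinal.le_aleph0_iff_set_countable]
  rw [Cardinal.mk_Iio_ordinal]
  rw [← Cardinal.lift_aleph0.{1, 0}]
  exact Cardinal.lift_le.2 h3

theorem polish_bool' : PolishSpace Bool := by
  have : SecondCountableTopology Bool := inferInstance
  infer_instance

theorem t_diag : S_diag := by
  have _hpb : PolishSpace Bool := polish_bool'
  intro hcls hU ξ lam hξ1 hξ hlam hlim P
  classical
  obtain ⟨W, hW1, hW2⟩ := hU ξ hξ1 hξ
  have hc := countable_Iio_of_lt hlam
  obtain ⟨e, he⟩ := Set.countable_iff_exists_injOn.1 hc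
  set F : Ordinal.{0} → Set (ℕ → Bool) := fun η =>
    {x | ∀ θ, θ < η → θ < lam → W (fun k => x (Nat.pair (e θ) k)) x} with hF
  refine ⟨F, ⟨?_, ?_, ?_, ?_⟩, ?_⟩
  · intro η _
    have e0 : (F η)ᶜ = ⋃ θ ∈ {θ : Ordinal.{0} | θ < η ∧ θ < lam},
        {x | W (fun k => x (Nat.pair (e θ) k)) x}ᶜ := by
      ext x
      simp only [hF, mem_compl_iff, mem_ofPred_eq, mem_iUnion, not_forall]
      constructor
      · rintro ⟨θ, h1, h2, h3⟩
        exact ⟨θ, ⟨h1, h2⟩, h3⟩
      · rintro ⟨θ, ⟨h1, h2⟩, h3⟩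
        exact ⟨θ, h1, h2, h3⟩
    rw [e0]
    refine sigma_biUnion hξ1 (hc.mono fun θ hθ => hθ.2) fun θ _ => ?_
    refine hW1 (fun x k => x (Nat.pair (e θ) k)) ?_
    exact continuous_pi fun k => continuous_apply _
  · intro η θ h x hx τ h1 h2
    exact hx τ (lt_of_lt_of_le h1 h) h2
  · ext x
    simp only [hF, mem_ofPred_eq, mem_univ, iff_true]
    intro θ h
    exact absurd h (not_lt_of_ge bot_le)
  · intro η hη hl
    ext x
    simp only [mem_iInter, mem_Iio]
    constructor
    · intro hx θ h τ h1 h2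
      exact hx τ (h1.trans h) h2
    · intro hx θ h1 h2
      exact hx (Order.succ θ) (hl.succ_lt h1) θ (Order.lt_succ θ) h2
  · intro G hG hE
    have hs : ∀ θ, θ < lam → θ + 1 < lam := fun θ h => by
      rw [← Order.succ_eq_add_one]
      exact hlim.succ_lt h
    have hcd : ∀ θ, ∃ c : ℕ → Bool, θ < lam → G (θ + 1) = {x | W c x} := by
      intro θ
      by_cases h : θ < lam
      · obtain ⟨c, hc⟩ := hW2 _ (hG.cls _ (hs θ h))
        exact ⟨c, fun _ => hc⟩
      · exact ⟨fun _ => false, fun h' => absurd h' h⟩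
    choose c hcc using hcd
    set z : ℕ → Bool := fun m =>
      if h : ∃ θ, θ < lam ∧ e θ = (Nat.unpair m).1 then c h.choose (Nat.unpair m).2 else false
      with hz
    have hzs : ∀ θ, θ < lam → (fun k => z (Nat.pair (e θ) k)) = c θ := by
      intro θ hθ
      funext k
      have hex : ∃ θ', θ' < lam ∧ e θ' = (Nat.unpair (Nat.pair (e θ) k)).1 :=
        ⟨θ, hθ, by rw [Nat.unpair_pair]⟩
      have h1 := hex.choose_spec
      have h2 : hex.choose = θ := he h1.1 hθ (by rw [h1.2, Nat.unpair_pair])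
      simp only [hz]
      rw [dif_pos hex, h2, Nat.unpair_pair]
    have h1 : ∀ η, η < lam → (z ∈ F η ↔ ∀ θ, θ < η → z ∈ G (θ + 1)) := by
      intro η hη
      constructor
      · intro h θ hθ
        have := h θ hθ (hθ.trans hη)
        rw [hzs θ (hθ.trans hη)] at this
        rw [hcc θ (hθ.trans hη)]
        exact this
      · intro h θ hθ hθl
        have := h θ hθ
        rw [hcc θ hθl] at this
        rw [hzs θ hθl]
        exact this
    have h2 : ∀ η, η < lam → ((∀ θ, θ < η → z ∈ G (θ + 1)) ↔ z ∈ G η) := by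
      intro η hη
      constructor
      · intro h
        rcases Ordinal.zero_or_succ_or_isSuccLimit η with h0 | ⟨θ, rfl⟩ | hl
        · rw [h0, hG.zero]; exact mem_univ _
        · exact h θ (Order.lt_succ θ)
        · rw [hG.cont η hη hl]
          simp only [mem_iInter, mem_Iio]
          intro θ hθ
          exact hG.anti θ (θ + 1) (by rw [← Order.succ_eq_add_one]; exact Order.le_succ θ) (h θ hθ)
      · intro h θ hθ
        exact hG.anti (θ + 1) η (by rw [← Order.succ_eq_add_one]; exact Order.succ_le_of_lt hθ) h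
    have h3 : ∀ η, η < lam → (z ∈ F η ↔ z ∈ G η) := fun η hη => (h1 η hη).trans (h2 η hη)
    have h4 : z ∈ Lv P F lam ↔ z ∈ Lv P G lam := by
      constructor
      · rintro ⟨η, a, b, c, d⟩
        exact ⟨η, a, b, (h3 η a).1 c, fun h => d ((h3 _ (hs η a)).2 h)⟩
      · rintro ⟨η, a, b, c, d⟩
        exact ⟨η, a, b, (h3 η a).2 c, fun h => d ((h3 _ (hs η a)).1 h)⟩
    have h5 : z ∈ (Lv P F lam)ᶜ ↔ z ∈ Lv P G lam := by rw [hE]
    rw [mem_compl_iff] at h5
    tauto

end Pool.Agent.Q215.SR
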