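import Pool.Agent.Q215.SR.Cls

/-!
Closure properties of the functions whose preimages of open sets are of class `SigmaZero ζ`.
-/

set_option autoImplicit false

open Set Topology Filter Ordinal

namespace Pool.Agent.Q215.SR

theorem t_fun : S_fun := by
  intro hcls X _ _ ζ hζ
  obtain ⟨c1, c2, c3, c4⟩ := hcls
  have h1ζ : (1 : Ordinal.{0}) ≤ ζ := by
    refine le_trans ?_ hζ
    exact one_le_two
  constructor
  · intro f g k hf hg hk U hU
    have hV : IsOpen (k ⁻¹' U) := hU.preimage hk
    have hb := TopologicalSpace.isBasis_countableBasis ℝ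
    have hbc := TopologicalSpace.countable_countableBasis ℝ
    have hne : (TopologicalSpace.countableBasis ℝ).Nonempty := by
      obtain ⟨s, hs, _⟩ := hb.exists_subset_of_mem_open (mem_univ (0 : ℝ)) isOpen_univ
      exact ⟨s, hs⟩
    obtain ⟨e, he⟩ := hbc.exists_eq_range hne
    classical
    have e0 : (fun x => k (f x, g x)) ⁻¹' U = ⋃ n : ℕ,
        (if e (Nat.unpair n).1 ×ˢ e (Nat.unpair n).2 ⊆ k ⁻¹' U then
          f ⁻¹' e (Nat.unpair n).1 ∩ g ⁻¹' e (Nat.unpair n).2 else ∅) := by
      ext x
      rw [mem_iUnion]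
      constructor
      · intro hx
        have hx' : (f x, g x) ∈ k ⁻¹' U := hx
        obtain ⟨I, J, hI, hJ, h1, h2, h3⟩ := isOpen_prod_iff.1 hV (f x) (g x) hx'
        obtain ⟨I', hI', h1', h1''⟩ := hb.exists_subset_of_mem_open h1 hI
        obtain ⟨J', hJ', h2', h2''⟩ := hb.exists_subset_of_mem_open h2 hJ
        rw [he] at hI' hJ'
        obtain ⟨i, rfl⟩ := hI'
        obtain ⟨j, rfl⟩ := hJ'
        refine ⟨Nat.pair i j, ?_⟩
        rw [Nat.unpair_pair]
        have hs : e i ×ˢ e j ⊆ k ⁻¹' U := (prod_mono h1'' h2'').trans h3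
        rw [if_pos hs]
        exact ⟨h1', h2'⟩
      · rintro ⟨n, hn⟩
        split_ifs at hn with h
        · exact h (show (f x, g x) ∈ _ from ⟨hn.1, hn.2⟩)
        · exact absurd hn (notMem_empty _)
    rw [e0]
    have ho : ∀ i, IsOpen (e i) := fun i => hb.isOpen (by rw [he]; exact mem_range_self i)
    refine c3 X ζ _ fun n => ?_
    split_ifs
    · exact c4 X ζ _ _ (hf _ (ho _)) (hg _ (ho _))
    · exact sigma_open h1ζ isOpen_empty
  · intro A hA hA' U
    have := Set.indicator_const_preimage A U (1 : ℝ)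
    simp only [mem_insert_iff, mem_singleton_iff] at this
    rcases this with h | h | h | h
    · rw [h]; exact sigma_open h1ζ isOpen_univ
    · rw [h]; exact hA
    · rw [h]; exact hA'
    · rw [h]; exact sigma_open h1ζ isOpen_empty

end Pool.Agent.Q215.SR
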