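import Pool.Agent.Q215.SR.Sep

/-!
The separation rank is the only rank up to essential equality.
-/

set_option autoImplicit false

open Set Topology Filter Ordinal

namespace Pool.Agent.Q215.SR

/-- the conclusion of `S_fun` -/
def Fun : Prop :=
  ∀ (X : Type) [TopologicalSpace X] [PolishSpace X] (ζ : Ordinal.{0}), 2 ≤ ζ →
    (∀ (f g : X → ℝ) (k : ℝ × ℝ → ℝ), (∀ U, IsOpen U → SigmaZero ζ (f ⁻¹' U)) →
      (∀ U, IsOpen U → SigmaZero ζ (g ⁻¹' U)) → Continuous k →
      ∀ U, IsOpen U → SigmaZero ζ ((fun x => k (f x, g x)) ⁻¹' U)) ∧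
    (∀ A : Set X, SigmaZero ζ A → SigmaZero ζ Aᶜ →
      ∀ U : Set ℝ, SigmaZero ζ ((A.indicator (fun _ => (1 : ℝ))) ⁻¹' U))

lemma omega_le_opow {η : Ordinal.{0}} (h : 1 ≤ η) : ω ≤ ω ^ η := by
  calc ω = ω ^ (1 : Ordinal.{0}) := (opow_one ω).symm
    _ ≤ ω ^ η := opow_le_opow_right omega0_pos h

lemma opow_lt_omega_one {η : Ordinal.{0}} (h : η < ω_ 1) : ω ^ η < ω_ 1 :=
  isPrincipal_opow_omega 1 omega0_lt_omega_one h

lemma opow_limit {η : Ordinal.{0}} (h : 1 ≤ η) : Order.IsSuccLimit (ω ^ η) :=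
  isSuccLimit_opow_left isSuccLimit_omega0 (Order.one_le_iff_ne_zero.1 h)

section Base

variable {X : Type} [TopologicalSpace X]

lemma sepRank_le {ξ : Ordinal.{0}} {B C : Set X} {lam : Ordinal.{0}}
    {F : Ordinal.{0} → Set X} (h1 : IsPiSeq ξ F lam) (h2 : B ⊆ transDiff F lam)
    (h3 : transDiff F lam ∩ C = ∅) : sepRank ξ B C ≤ lam := csInf_le' (Or.inr ⟨F, h1, h2, h3⟩)

lemma exists_seq {ξ : Ordinal.{0}} {B C : Set X} {mu : Ordinal.{0}} (hmu : mu < ω_ 1)
    (h : sepRank ξ B C ≤ mu) :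
    ∃ lam, lam ≤ mu ∧ ∃ F : Ordinal.{0} → Set X, IsPiSeq ξ F lam ∧
      B ⊆ transDiff F lam ∧ transDiff F lam ∩ C = ∅ := by
  have hne : {lam : Ordinal.{0} | lam = ω_ 1 ∨ ∃ F : Ordinal.{0} → Set X, IsPiSeq ξ F lam ∧
      B ⊆ transDiff F lam ∧ transDiff F lam ∩ C = ∅}.Nonempty := ⟨ω_ 1, Or.inl rfl⟩
  rcases csInf_mem hne with h1 | h1
  · exact absurd (lt_of_le_of_lt h hmu) (not_lt.2 (le_of_eq h1.symm))
  · exact ⟨_, h, h1⟩

/-- the sequence with `F η = univ` for `η < n` -/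
lemma const_seq [PolishSpace X] {ξ : Ordinal.{0}} (hξ : 1 ≤ ξ) (n : ℕ) :
    IsPiSeq (X := X) ξ (fun η => if η < ((n + 1 : ℕ) : Ordinal.{0}) then univ else ∅)
      ((n + 1 : ℕ) : Ordinal.{0}) where
  cls := fun η => by
    split_ifs
    · rw [compl_univ]; exact sigma_open hξ isOpen_empty
    · rw [compl_empty]; exact sigma_open hξ isOpen_univ
  anti := fun η θ h => by
    by_cases h1 : θ < ((n + 1 : ℕ) : Ordinal.{0})
    · simp only [if_pos h1, if_pos (lt_of_le_of_lt h h1)]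
      exact subset_rfl
    · simp only [if_neg h1]; exact empty_subset _
  zero := by
    have : (0 : Ordinal.{0}) < ((n + 1 : ℕ) : Ordinal.{0}) := by exact_mod_cast Nat.succ_pos n
    simp only [if_pos this]
  cont := fun η hη hl => by
    exfalso
    have h1 : ω ≤ η := omega0_le_of_isSuccLimit hl
    exact absurd (hη.trans (natCast_lt_omega0 _)) (not_lt.2 h1)
  last := fun hl => by
    exfalso
    have h1 : ω ≤ ((n + 1 : ℕ) : Ordinal.{0}) := omega0_le_of_isSuccLimit hl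
    exact absurd (natCast_lt_omega0 (n + 1)) (not_lt.2 h1)
  vanish := fun η hη => by simp only [if_neg (not_lt.2 hη)]

/-- if one of the sets is empty, the rank is at most 2 -/
lemma sepRank_left [PolishSpace X] {ξ : Ordinal.{0}} (hξ : 1 ≤ ξ) (C : Set X) :
    sepRank ξ (∅ : Set X) C ≤ 2 := by
  have h := const_seq (X := X) hξ 1
  have e : ((1 + 1 : ℕ) : Ordinal.{0}) = 2 := by norm_num
  rw [e] at h
  refine sepRank_le h (empty_subset _) ?_
  rw [eq_empty_iff_forall_notMem]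
  rintro x ⟨⟨η, h1, h2, h3, h4⟩, -⟩
  have h5 : η = 0 := by
    by_contra hne
    have h6 : 1 ≤ η := Order.one_le_iff_ne_zero.2 hne
    have h7 : η ≤ 1 := by
      have : η < 1 + 1 := by
        have e2 : (1 + 1 : Ordinal.{0}) = 2 := by norm_num
        rw [e2]; exact h1
      exact Order.lt_add_one_iff.1 this
    have h8 : η = 1 := le_antisymm h7 h6
    rw [h8] at h2
    have h9 := Ordinal.mod_eq_zero_of_dvd h2
    rw [Ordinal.mod_eq_of_lt (by norm_num)] at h9
    exact one_ne_zero h9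
  rw [h5, zero_add] at h4
  have h6 : (1 : Ordinal.{0}) < 2 := by norm_num
  simp only [if_pos h6] at h4
  exact h4 (mem_univ x)

lemma sepRank_right [PolishSpace X] {ξ : Ordinal.{0}} (hξ : 1 ≤ ξ) (B : Set X) :
    sepRank ξ B (∅ : Set X) ≤ 1 := by
  have h := const_seq (X := X) hξ 0
  have e : ((0 + 1 : ℕ) : Ordinal.{0}) = 1 := by norm_num
  rw [e] at h
  refine sepRank_le h ?_ (inter_empty _)
  intro x _
  refine ⟨0, zero_lt_one, dvd_zero _, ?_, ?_⟩
  · simp only [if_pos (zero_lt_one (α := Ordinal.{0}))]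
    exact mem_univ x
  · simp only [zero_add, lt_irrefl, if_false]
    exact notMem_empty x

/-- the rank of an indicator -/
lemma alpha_indicator [PolishSpace X] {ξ : Ordinal.{0}} (hξ : 1 ≤ ξ) {A : Set X}
    {mu : Ordinal.{0}} (h2 : 2 ≤ mu) (h : sepRank ξ Aᶜ A ≤ mu) :
    alpha ξ (A.indicator (fun _ => (1 : ℝ))) ≤ mu := by
  refine Ordinal.iSup_le ?_
  rintro ⟨⟨p, q⟩, hpq⟩
  have hpq' : (p : ℝ) < (q : ℝ) := by exact_mod_cast hpq
  show sepRank ξ {x | A.indicator (fun _ => (1 : ℝ)) x ≤ (p : ℝ)}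
    {x | (q : ℝ) ≤ A.indicator (fun _ => (1 : ℝ)) x} ≤ mu
  rcases lt_or_ge (p : ℝ) 0 with hp | hp
  · have e : {x | A.indicator (fun _ => (1 : ℝ)) x ≤ (p : ℝ)} = ∅ := by
      rw [eq_empty_iff_forall_notMem]
      intro x hx
      have h5 : A.indicator (fun _ => (1 : ℝ)) x ≤ (p : ℝ) := hx
      have h6 : 0 ≤ A.indicator (fun _ => (1 : ℝ)) x := indicator_nonneg (fun _ _ => zero_le_one) x
      linarith
    rw [e]
    exact (sepRank_left hξ _).trans h2
  · rcases lt_or_ge 1 (q : ℝ) with hq | hq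
    · have e : {x | (q : ℝ) ≤ A.indicator (fun _ => (1 : ℝ)) x} = ∅ := by
        rw [eq_empty_iff_forall_notMem]
        intro x hx
        have h5 : (q : ℝ) ≤ A.indicator (fun _ => (1 : ℝ)) x := hx
        have h6 : A.indicator (fun _ => (1 : ℝ)) x ≤ 1 := by
          by_cases hxA : x ∈ A
          · rw [indicator_of_mem hxA]
          · rw [indicator_of_notMem hxA]; exact zero_le_one
        linarith
      rw [e]
      exact (sepRank_right hξ _).trans ((by norm_num : (1 : Ordinal.{0}) ≤ 2).trans h2)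
    · have e1 : {x | A.indicator (fun _ => (1 : ℝ)) x ≤ (p : ℝ)} = Aᶜ := by
        ext x
        constructor
        · intro hx hxA
          have h5 : A.indicator (fun _ => (1 : ℝ)) x ≤ (p : ℝ) := hx
          rw [indicator_of_mem hxA] at h5
          linarith
        · intro hx
          show A.indicator (fun _ => (1 : ℝ)) x ≤ (p : ℝ)
          rw [indicator_of_notMem hx]; exact hp
      have e2 : {x | (q : ℝ) ≤ A.indicator (fun _ => (1 : ℝ)) x} = A := by
        ext x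
        constructor
        · intro hx
          by_contra hxA
          have h5 : (q : ℝ) ≤ A.indicator (fun _ => (1 : ℝ)) x := hx
          rw [indicator_of_notMem hxA] at h5
          linarith
        · intro hx
          show (q : ℝ) ≤ A.indicator (fun _ => (1 : ℝ)) x
          rw [indicator_of_mem hx]; exact hq
      rw [e1, e2]
      exact h

lemma le_alpha_indicator {ξ : Ordinal.{0}} (A : Set X) :
    sepRank ξ Aᶜ A ≤ alpha ξ (A.indicator (fun _ => (1 : ℝ))) := by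
  have h := Ordinal.le_iSup (fun pq : {pq : ℚ × ℚ // pq.1 < pq.2} =>
    sepRank ξ {x | A.indicator (fun _ => (1 : ℝ)) x ≤ (pq.1.1 : ℝ)}
      {x | (pq.1.2 : ℝ) ≤ A.indicator (fun _ => (1 : ℝ)) x}) ⟨(0, 1), zero_lt_one⟩
  have e1 : {x | A.indicator (fun _ => (1 : ℝ)) x ≤ ((0 : ℚ) : ℝ)} = Aᶜ := by
    ext x
    constructor
    · intro hx hxA
      have h5 : A.indicator (fun _ => (1 : ℝ)) x ≤ ((0 : ℚ) : ℝ) := hx
      rw [indicator_of_mem hxA] at h5
      norm_num at h5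
    · intro hx
      show A.indicator (fun _ => (1 : ℝ)) x ≤ ((0 : ℚ) : ℝ)
      rw [indicator_of_notMem hx]; norm_num
  have e2 : {x | ((1 : ℚ) : ℝ) ≤ A.indicator (fun _ => (1 : ℝ)) x} = A := by
    ext x
    constructor
    · intro hx
      by_contra hxA
      have h5 : ((1 : ℚ) : ℝ) ≤ A.indicator (fun _ => (1 : ℝ)) x := hx
      rw [indicator_of_notMem hxA] at h5
      norm_num at h5
    · intro hx
      show ((1 : ℚ) : ℝ) ≤ A.indicator (fun _ => (1 : ℝ)) x
      rw [indicator_of_mem hx]; norm_num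
  simp only [e1, e2] at h
  exact h

end Base

section Rank

variable {X : Type} [TopologicalSpace X] [PolishSpace X] {ρ : RankFamily} {ξ : Ordinal.{0}}

lemma two_le_add {ξ : Ordinal.{0}} (h : 1 ≤ ξ) : 2 ≤ ξ + 1 := by
  have e : (2 : Ordinal.{0}) = 1 + 1 := by norm_num
  rw [e]
  exact add_le_add_left h 1

/-- functions of rank at most `μ`. -/
def Good (ξ : Ordinal.{0}) (ρ : RankFamily) (μ : Ordinal.{0}) (f : X → ℝ) : Prop :=
  IsBddBaire ξ f ∧ ρ X f ≤ μ

lemma baire_add (hf : Fun) (hξ : 1 ≤ ξ) {f g : X → ℝ} (h1 : IsBddBaire ξ f)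
    (h2 : IsBddBaire ξ g) : IsBddBaire ξ (fun x => f x + g x) := by
  obtain ⟨⟨M, hM⟩, h3⟩ := h1
  obtain ⟨⟨N, hN⟩, h4⟩ := h2
  refine ⟨⟨M + N, fun x => (abs_add_le _ _).trans (add_le_add (hM x) (hN x))⟩, ?_⟩
  exact (hf X (ξ + 1) (two_le_add hξ)).1 f g (fun p => p.1 + p.2) h3 h4 (by fun_prop)

lemma baire_comp {f : X → ℝ} (h1 : IsBddBaire ξ f) {h : ℝ → ℝ} (hh : ∃ K, LipschitzWith K h) :
    IsBddBaire ξ (fun x => h (f x)) := by
  obtain ⟨⟨M, hM⟩, h3⟩ := h1
  obtain ⟨K, hK⟩ := hh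
  refine ⟨⟨|h 0| + K * M, fun x => ?_⟩, fun U hU => ?_⟩
  · have h5 := hK.dist_le_mul (f x) 0
    rw [Real.dist_eq, Real.dist_eq, _root_.sub_zero] at h5
    have h6 : |h (f x)| ≤ |h (f x) - h 0| + |h 0| := by
      have := abs_add_le (h (f x) - h 0) (h 0)
      rwa [sub_add_cancel] at this
    have h7 : (K : ℝ) * |f x| ≤ K * M := mul_le_mul_of_nonneg_left (hM x) K.2
    linarith
  · exact h3 (h ⁻¹' U) (hU.preimage hK.continuous)

lemma baire_ind (hf : Fun) (hξ : 1 ≤ ξ) {A : Set X} (h1 : SigmaZero (ξ + 1) A)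
    (h2 : SigmaZero (ξ + 1) Aᶜ) : IsBddBaire ξ (A.indicator (fun _ => (1 : ℝ))) := by
  refine ⟨⟨1, fun x => ?_⟩, fun U _ => (hf X (ξ + 1) (two_le_add hξ)).2 A h1 h2 U⟩
  by_cases hx : x ∈ A
  · rw [indicator_of_mem hx, abs_one]
  · rw [indicator_of_notMem hx, abs_zero]; exact zero_le_one

lemma lip_mul (c : ℝ) : ∃ K, LipschitzWith K (fun t : ℝ => c * t) := by
  refine ⟨‖c‖₊, LipschitzWith.of_dist_le_mul fun s t => ?_⟩
  rw [Real.dist_eq, Real.dist_eq, ← _root_.mul_sub, abs_mul]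
  rfl

lemma good_add (hf : Fun) (hξ : 1 ≤ ξ) (h2 : P2 ξ ρ) {η : Ordinal.{0}} (hη : 1 ≤ η)
    (hη' : η < ω_ 1) {f g : X → ℝ} (hf' : Good ξ ρ (ω ^ η) f) (hg : Good ξ ρ (ω ^ η) g) :
    Good ξ ρ (ω ^ η) (fun x => f x + g x) :=
  ⟨baire_add hf hξ hf'.1 hg.1, (h2 X f g hf'.1 hg.1).2 η hη hη' (max_le hf'.2 hg.2)⟩

lemma good_mul (h2 : P2 ξ ρ) {η : Ordinal.{0}} (hη : 1 ≤ η) (hη' : η < ω_ 1) {f : X → ℝ}
    (hf : Good ξ ρ (ω ^ η) f) {c : ℝ} (hc : c ≠ 0) : Good ξ ρ (ω ^ η) (fun x => c * f x) :=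
  ⟨baire_comp (h := fun t => c * t) hf.1 (lip_mul c),
    ((h2 X f f hf.1 hf.1).1 c hc).1 η hη hη' hf.2⟩

lemma good_comp (h4 : P4 ξ ρ) {η : Ordinal.{0}} (hη : 1 ≤ η) (hη' : η < ω_ 1) {f : X → ℝ}
    (hf : Good ξ ρ (ω ^ η) f) {h : ℝ → ℝ} (hh : ∃ K, LipschitzWith K h) :
    Good ξ ρ (ω ^ η) (fun x => h (f x)) :=
  ⟨baire_comp hf.1 hh, h4 X f hf.1 h hh η hη hη' hf.2⟩

lemma two_le_opow {η : Ordinal.{0}} (hη : 1 ≤ η) : 2 ≤ ω ^ η := by
  have h4 : (2 : Ordinal.{0}) = ((2 : ℕ) : Ordinal.{0}) := by norm_num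
  rw [h4]
  exact (Ordinal.natCast_lt_omega0 2).le.trans (omega_le_opow hη)

/-- indicators of closed sets -/
lemma good_closed (hf : Fun) (hξ : 1 ≤ ξ) (h1 : P1 ξ ρ) {η : Ordinal.{0}} (hη : 1 ≤ η)
    (hη' : η < ω_ 1) {A : Set X} (hA : IsClosed A) :
    Good ξ ρ (ω ^ η) (A.indicator (fun _ => (1 : ℝ))) := by
  have h1' : (1 : Ordinal.{0}) < ξ + 1 := Order.lt_add_one_iff.2 hξ
  have k1 : SigmaZero (ξ + 1) A := sigma_compl_lt h1' (SigmaZero.base _ hA.isOpen_compl)
  have k2 : SigmaZero (ξ + 1) Aᶜ := sigma_open h1'.le hA.isOpen_compl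
  refine ⟨baire_ind hf hξ k1 k2, (h1 X A k1 k2).1 η hη hη' ?_⟩
  refine alpha_indicator hξ (two_le_opow hη) ?_
  -- the sequence univ, A, ∅
  have hs : IsPiSeq ξ (fun θ : Ordinal.{0} => if θ = 0 then univ else if θ = 1 then A else ∅)
      2 := by
    have l1 : ∀ θ : Ordinal.{0}, 2 ≤ θ → θ ≠ 0 ∧ θ ≠ 1 := by
      intro θ h
      constructor
      · rintro rfl
        exact absurd h (by norm_num)
      · rintro rfl
        exact absurd h (by norm_num)
    have l2 : ∀ θ : Ordinal.{0}, Order.IsSuccLimit θ → ¬ θ ≤ 2 := by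
      intro θ h h2
      have h3 : ω ≤ θ := omega0_le_of_isSuccLimit h
      have h4 : (2 : Ordinal.{0}) < ω := by
        have := natCast_lt_omega0 2
        simpa using this
      exact absurd (h3.trans h2) (not_le.2 h4)
    constructor
    · intro θ
      split_ifs
      · rw [compl_univ]; exact sigma_open hξ isOpen_empty
      · exact sigma_open hξ hA.isOpen_compl
      · rw [compl_empty]; exact sigma_open hξ isOpen_univ
    · intro θ γ h
      by_cases h0 : θ = 0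
      · simp only [if_pos h0]; exact subset_univ _
      · have h0' : γ ≠ 0 := fun h5 => h0 (le_antisymm (h5 ▸ h) zero_le)
        simp only [if_neg h0, if_neg h0']
        by_cases h3 : θ = 1
        · simp only [if_pos h3]
          split_ifs
          · exact subset_rfl
          · exact empty_subset _
        · have h4 : γ ≠ 1 := by
            rintro rfl
            exact h3 (le_antisymm h (Order.one_le_iff_ne_zero.2 h0))
          simp only [if_neg h4]
          exact empty_subset _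
    · simp only [if_true]
    · intro θ hθ hl
      exact absurd hθ.le (l2 θ hl)
    · intro hl
      exact absurd le_rfl (l2 2 hl)
    · intro θ hθ
      simp only [if_neg (l1 θ hθ).1, if_neg (l1 θ hθ).2]
  have h12 : (1 : Ordinal.{0}) < 2 := by norm_num
  have e2 : (1 + 1 : Ordinal.{0}) = 2 := by norm_num
  refine (sepRank_le hs ?_ ?_).trans (two_le_opow hη)
  · intro x hx
    refine ⟨0, by norm_num, dvd_zero _, ?_, ?_⟩
    · simp only [if_true]; exact mem_univ x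
    · simp only [zero_add, one_ne_zero, if_false, if_true]; exact hx
  · rw [eq_empty_iff_forall_notMem]
    rintro x ⟨⟨θ, g1, g2, g3, g4⟩, hx⟩
    by_cases h0 : θ = 0
    · simp only [h0, zero_add, one_ne_zero, if_false, if_true] at g4
      exact g4 hx
    · have g6 : θ ≤ 1 := by
        have : θ < 1 + 1 := by rw [e2]; exact g1
        exact Order.lt_add_one_iff.1 this
      have g7 : θ = 1 := le_antisymm g6 (Order.one_le_iff_ne_zero.2 h0)
      rw [g7] at g2
      have h9 := Ordinal.mod_eq_zero_of_dvd g2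
      rw [Ordinal.mod_eq_of_lt (by norm_num)] at h9
      exact one_ne_zero h9

end Rank

end Pool.Agent.Q215.SR
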