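import Pool.Agent.Q215.SR.Main

/-!
The separation rank: the two inequalities.
-/

set_option autoImplicit false

open Set Topology Filter Ordinal

namespace Pool.Agent.Q215.SR

lemma lv_ofSeq {X : Type} [TopologicalSpace X] {ξ lam mu : Ordinal.{0}}
    {F : Ordinal.{0} → Set X} (hF : IsPiSeq ξ F lam) (h : lam ≤ mu) :
    Lv (fun η => 2 ∣ η) F mu = transDiff F lam := by
  ext x
  constructor
  · rintro ⟨η, -, h2, h3, h4⟩
    refine ⟨η, ?_, h2, h3, h4⟩
    by_contra hc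
    rw [hF.vanish η (not_lt.1 hc)] at h3
    exact h3
  · rintro ⟨η, h1, h2, h3, h4⟩
    exact ⟨η, lt_of_lt_of_le h1 h, h2, h3, h4⟩

lemma lv_ofSeq' {X : Type} [TopologicalSpace X] {ξ lam mu : Ordinal.{0}}
    {F : Ordinal.{0} → Set X} (hF : IsPiSeq ξ F lam) (h : lam ≤ mu)
    (hl : Order.IsSuccLimit mu) :
    Lv (fun η => ¬ 2 ∣ η) F mu = (transDiff F lam)ᶜ := by
  obtain ⟨h1, h2⟩ := ofSeq hF h hl
  rw [← lv_ofSeq hF h]
  ext x
  constructor
  · rintro ⟨η, -, k2, k3, k4⟩ ⟨θ, -, m2, m3, m4⟩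
    rw [lv_unique h1 k3 k4 m3 m4] at k2
    exact k2 m2
  · intro hx
    exact lv_of_ok h1 (ok_of_not_lv hx) (h2 x)

lemma cnt (j K : ℕ) : ∑ i ∈ Finset.range K, (if j ≤ i then (1 : ℝ) else 0) =
    ((K - j : ℕ) : ℝ) := by
  induction K with
  | zero => simp
  | succ K ih =>
    rw [Finset.sum_range_succ, ih]
    by_cases h : j ≤ K
    · rw [if_pos h, Nat.succ_sub h]; push_cast; ring
    · rw [if_neg h, show K - j = 0 by omega, show K + 1 - j = 0 by omega]; norm_num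

section Rank

variable {X : Type} [TopologicalSpace X] [PolishSpace X] {ρ : RankFamily} {ξ : Ordinal.{0}}

lemma good_const (hF : Fun) (hξ : 1 ≤ ξ) (h1 : P1 ξ ρ) (h2 : P2 ξ ρ) {η : Ordinal.{0}}
    (hη : 1 ≤ η) (hη' : η < ω_ 1) {c : ℝ} (hc : c ≠ 0) :
    Good (X := X) ξ ρ (ω ^ η) (fun _ => c) := by
  have := good_mul h2 hη hη' (good_closed (X := X) hF hξ h1 hη hη' isClosed_univ) (c := c) hc
  simpa using this

lemma good_compl (hF : Fun) (hξ : 1 ≤ ξ) (h1 : P1 ξ ρ) (h2 : P2 ξ ρ) {η : Ordinal.{0}}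
    (hη : 1 ≤ η) (hη' : η < ω_ 1) {A : Set X}
    (h : Good ξ ρ (ω ^ η) (A.indicator (fun _ => (1 : ℝ)))) :
    Good ξ ρ (ω ^ η) (Aᶜ.indicator (fun _ => (1 : ℝ))) := by
  have e : Aᶜ.indicator (fun _ => (1 : ℝ)) =
      fun x => (1 : ℝ) + -1 * A.indicator (fun _ => (1 : ℝ)) x := by
    funext x
    by_cases hx : x ∈ A
    · rw [indicator_of_mem hx, indicator_of_notMem (show x ∉ Aᶜ from fun h => h hx)]; norm_num
    · rw [indicator_of_notMem hx, indicator_of_mem (show x ∈ Aᶜ from hx)]; norm_num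
  rw [e]
  exact good_add hF hξ h2 hη hη' (good_const hF hξ h1 h2 hη hη' one_ne_zero)
    (good_mul h2 hη hη' h (by norm_num))

/-- indicators of the parts of closed sets on which a good function has a gap -/
lemma good_part (hF : Fun) (hξ : 1 ≤ ξ) (h1 : P1 ξ ρ) (h2 : P2 ξ ρ) (h4 : P4 ξ ρ)
    {η : Ordinal.{0}} (hη : 1 ≤ η) (hη' : η < ω_ 1) {g : X → ℝ} (hg : Good ξ ρ (ω ^ η) g)
    {a b : ℝ} (hab : a < b) {Y : Set X} (hYc : IsClosed Y)
    (hY : ∀ y ∈ Y, g y ≤ a ∨ b ≤ g y) :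
    Good ξ ρ (ω ^ η) ((Y ∩ {x | g x ≤ a}).indicator (fun _ => (1 : ℝ))) := by
  let h : ℝ → ℝ := fun t => max (min ((b - t) / (b - a)) 1) 0
  have hd : 0 < b - a := by linarith
  have hlip : ∃ K, LipschitzWith K h := by
    refine ⟨(1 / (b - a)).toNNReal, ?_⟩
    have h0 : LipschitzWith (1 / (b - a)).toNNReal (fun t : ℝ => (b - t) / (b - a)) := by
      refine LipschitzWith.of_dist_le_mul fun s t => ?_
      rw [Real.dist_eq, Real.dist_eq, Real.coe_toNNReal _ (by positivity)]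
      have e : (b - s) / (b - a) - (b - t) / (b - a) =
          -(1 / (b - a)) * (s - t) := by
        field_simp; ring
      rw [e, abs_mul, abs_neg, abs_of_pos (by positivity : (0 : ℝ) < 1 / (b - a))]
    exact (h0.min_const 1).max_const 0
  have ga : Good ξ ρ (ω ^ η) (Y.indicator (fun _ => (1 : ℝ))) :=
    good_closed hF hξ h1 hη hη' hYc
  have gb : Good ξ ρ (ω ^ η) (fun y => h (g y)) := good_comp h4 hη hη' hg hlip
  have g1 := good_add hF hξ h2 hη hη' ga gb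
  have g2 := good_mul h2 hη hη' gb (c := -1) (by norm_num)
  have g3 := good_add hF hξ h2 hη hη' ga g2
  have g4 := good_comp h4 hη hη' g3 (h := fun t => |t|)
    ⟨1, lipschitzWith_one_norm⟩
  have g5 := good_mul h2 hη hη' g4 (c := -1) (by norm_num)
  have g6 := good_add hF hξ h2 hη hη' g1 g5
  have g7 := good_mul h2 hη hη' g6 (c := 1 / 2) (by norm_num)
  have e : (Y ∩ {x | g x ≤ a}).indicator (fun _ => (1 : ℝ)) = fun x => 1 / 2 *
      (Y.indicator (fun _ => (1 : ℝ)) x + h (g x) +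
        -1 * |Y.indicator (fun _ => (1 : ℝ)) x + -1 * h (g x)|) := by
    funext y
    by_cases hyY : y ∈ Y
    · rw [indicator_of_mem hyY]
      rcases hY y hyY with hy | hy
      · have hyA : y ∈ Y ∩ {x | g x ≤ a} := ⟨hyY, hy⟩
        rw [indicator_of_mem hyA]
        have hh : h (g y) = 1 := by
          have h5 : 1 ≤ (b - g y) / (b - a) := by
            rw [le_div_iff₀ hd]; linarith
          simp only [h]
          rw [min_eq_right h5]
          norm_num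
        rw [hh]; norm_num
      · have hyA : y ∉ Y ∩ {x | g x ≤ a} := by
          rintro ⟨-, h5⟩
          have h6 : g y ≤ a := h5
          linarith
        rw [indicator_of_notMem hyA]
        have hh : h (g y) = 0 := by
          have h5 : (b - g y) / (b - a) ≤ 0 :=
            div_nonpos_of_nonpos_of_nonneg (by linarith) hd.le
          simp only [h]
          exact max_eq_right ((min_le_left _ _).trans h5)
        rw [hh]; norm_num
    · have hyA : y ∉ Y ∩ {x | g x ≤ a} := fun h5 => hyY h5.1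
      rw [indicator_of_notMem hyA, indicator_of_notMem hyY]
      have h5 : 0 ≤ h (g y) := le_max_right _ _
      have h6 : |0 + -1 * h (g y)| = h (g y) := by
        rw [zero_add, neg_one_mul, abs_neg, abs_of_nonneg h5]
      rw [h6]; ring
  rw [e]
  exact g7

lemma oneSide (hD : Dich) (hF : Fun) (hξ : 1 ≤ ξ) (hξ' : ξ < ω_ 1) (h1 : P1 ξ ρ)
    (h2 : P2 ξ ρ) (h4 : P4 ξ ρ) {η : Ordinal.{0}} (hη : 1 ≤ η) (hη' : η < ω_ 1) {g : X → ℝ}
    (hg : Good ξ ρ (ω ^ η) g) {a b : ℝ} (hab : a < b) (ev : Bool) :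
    ∃ F : Ordinal.{0} → Set X, Pre ξ F (ω ^ η) ∧
      {x | g x ≤ a} ⊆ Lv (fun η => if ev then 2 ∣ η else ¬ 2 ∣ η) F (ω ^ η) ∧
      Lv (fun η => if ev then 2 ∣ η else ¬ 2 ∣ η) F (ω ^ η) ∩ {x | b ≤ g x} = ∅ := by
  have cA : SigmaZero (ξ + 1) {x | g x ≤ a}ᶜ := by
    have e : {x | g x ≤ a}ᶜ = g ⁻¹' (Ioi a) := by
      ext x
      exact ⟨fun h => not_le.1 (show ¬ g x ≤ a from h), fun h => not_le.2 (show a < g x from h)⟩
    rw [e]; exact hg.1.2 _ isOpen_Ioi
  have cB : SigmaZero (ξ + 1) {x | b ≤ g x}ᶜ := by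
    have e : {x | b ≤ g x}ᶜ = g ⁻¹' (Iio b) := by
      ext x
      exact ⟨fun h => not_le.1 (show ¬ b ≤ g x from h), fun h => not_le.2 (show g x < b from h)⟩
    rw [e]; exact hg.1.2 _ isOpen_Iio
  rcases hD X ξ (ω ^ η) hξ hξ' (opow_lt_omega_one hη') (opow_limit hη)
    (fun η => if ev then 2 ∣ η else ¬ 2 ∣ η) {x | g x ≤ a} {x | b ≤ g x} (ξ + 1) cA cB with
    h | ⟨k, C, k1, k2, k3, k4⟩
  · exact h
  exfalso
  have hYc : IsClosed (range k) := (isCompact_range k1).isClosed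
  have hY : ∀ y ∈ range k, g y ≤ a ∨ b ≤ g y := by
    rintro y ⟨z, rfl⟩
    by_cases hz : z ∈ C
    · exact Or.inl (k3 z hz)
    · exact Or.inr (k4 z hz)
  set A : Set X := range k ∩ {x | g x ≤ a} with hA
  have hkA : C = k ⁻¹' A := by
    ext z
    constructor
    · intro hz
      exact ⟨mem_range_self z, k3 z hz⟩
    · rintro ⟨-, hz⟩
      by_contra hc
      have h5 : b ≤ g (k z) := k4 z hc
      have h6 : g (k z) ≤ a := hz
      linarith
  have gA := good_part hF hξ h1 h2 h4 hη hη' hg hab hYc hY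
  rw [← hA] at gA
  have gA' := good_compl hF hξ h1 h2 hη hη' gA
  have h1' : (1 : Ordinal.{0}) < ξ + 1 := Order.lt_add_one_iff.2 hξ
  have cl1 : SigmaZero (ξ + 1) A := by
    have e : A = range k ∩ g ⁻¹' (Iio b) := by
      ext x
      constructor
      · rintro ⟨h5, h6⟩
        exact ⟨h5, lt_of_le_of_lt (show g x ≤ a from h6) hab⟩
      · rintro ⟨h5, h6⟩
        refine ⟨h5, ?_⟩
        rcases hY x h5 with h7 | h7
        · exact h7
        · exact absurd (show g x < b from h6) (not_lt.2 h7)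
    rw [e]
    exact sigma_inter (sigma_compl_lt h1' (SigmaZero.base _ hYc.isOpen_compl))
      (hg.1.2 _ isOpen_Iio)
  have cl2 : SigmaZero (ξ + 1) Aᶜ := by
    rw [hA, compl_inter]
    exact sigma_union (sigma_open h1'.le hYc.isOpen_compl) cA
  have hmu : ω ^ η < ω_ 1 := opow_lt_omega_one hη'
  cases ev with
  | true =>
    have a1 : alpha ξ (Aᶜ.indicator (fun _ => (1 : ℝ))) ≤ ω ^ η :=
      (h1 X Aᶜ cl2 (by rw [compl_compl]; exact cl1)).2 η hη hη' gA'.2
    have a2 := (le_alpha_indicator (ξ := ξ) Aᶜ).trans a1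
    obtain ⟨lam, hlam, F, hF', m1, m2⟩ := exists_seq hmu a2
    rw [compl_compl] at m1
    have e1 : A = transDiff F lam := by
      refine Subset.antisymm m1 fun x hx => ?_
      by_contra hc
      have : x ∈ transDiff F lam ∩ Aᶜ := ⟨hx, hc⟩
      rw [m2] at this
      exact this
    rw [← lv_ofSeq hF' hlam] at e1
    refine k2 (fun η => k ⁻¹' (F η)) (pre_preimage k1 (ofSeq hF' hlam (opow_limit hη)).1) ?_
    rw [lv_preimage, hkA, e1]
    rfl
  | false =>
    have a1 : alpha ξ (A.indicator (fun _ => (1 : ℝ))) ≤ ω ^ η :=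
      (h1 X A cl1 cl2).2 η hη hη' gA.2
    have a2 := (le_alpha_indicator (ξ := ξ) A).trans a1
    obtain ⟨lam, hlam, F, hF', m1, m2⟩ := exists_seq hmu a2
    have e1 : A = (transDiff F lam)ᶜ := by
      ext x
      constructor
      · intro hx hx2
        have : x ∈ transDiff F lam ∩ A := ⟨hx2, hx⟩
        rw [m2] at this
        exact this
      · intro hx
        by_contra hc
        exact hx (m1 hc)
    rw [← lv_ofSeq' hF' hlam (opow_limit hη)] at e1
    refine k2 (fun η => k ⁻¹' (F η)) (pre_preimage k1 (ofSeq hF' hlam (opow_limit hη)).1) ?_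
    rw [lv_preimage, hkA, e1]
    rfl

lemma lowerSeq (hD : Dich) (hF : Fun) (hξ : 1 ≤ ξ) (hξ' : ξ < ω_ 1) (h1 : P1 ξ ρ)
    (h2 : P2 ξ ρ) (h4 : P4 ξ ρ) {η : Ordinal.{0}} (hη : 1 ≤ η) (hη' : η < ω_ 1) {f : X → ℝ}
    (hf : Good ξ ρ (ω ^ η) f) {p q : ℝ} (hpq : p < q) :
    ∃ G : Ordinal.{0} → Set X, IsPiSeq ξ G (ω ^ η) ∧ {x | f x ≤ p} ⊆ transDiff G (ω ^ η) ∧
      transDiff G (ω ^ η) ∩ {x | q ≤ f x} = ∅ := by
  set s := (p + q) / 2 with hs
  have hps : p < s := by rw [hs]; linarith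
  have hsq : s < q := by rw [hs]; linarith
  have gn : Good ξ ρ (ω ^ η) (fun x => -1 * f x) := good_mul h2 hη hη' hf (by norm_num)
  obtain ⟨F1, p1, a1, b1⟩ := oneSide hD hF hξ hξ' h1 h2 h4 hη hη' hf hps true
  obtain ⟨F2, p2, a2, b2⟩ := oneSide hD hF hξ hξ' h1 h2 h4 hη hη' gn
    (show -s < -p by linarith) false
  obtain ⟨F3, p3, a3, b3⟩ := oneSide hD hF hξ hξ' h1 h2 h4 hη hη' hf hsq true
  obtain ⟨F4, p4, a4, b4⟩ := oneSide hD hF hξ hξ' h1 h2 h4 hη hη' gn
    (show -q < -s by linarith) false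
  simp only [if_true, if_false, Bool.false_eq_true] at a1 b1 a2 b2 a3 b3 a4 b4
  have hl := opow_limit hη
  -- membership facts
  have e1 : ∀ x, f x ≤ p → x ∈ Lv (fun η => 2 ∣ η) F1 (ω ^ η) := fun x hx => a1 hx
  have e1' : ∀ x, s ≤ f x → x ∉ Lv (fun η => 2 ∣ η) F1 (ω ^ η) := by
    intro x hx hc
    have : x ∈ Lv (fun η => 2 ∣ η) F1 (ω ^ η) ∩ {x | s ≤ f x} := ⟨hc, hx⟩
    rw [b1] at this
    exact this
  have e2 : ∀ x, s ≤ f x → x ∈ Lv (fun η => ¬ 2 ∣ η) F2 (ω ^ η) := fun x hx =>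
    a2 (show -1 * f x ≤ -s by linarith)
  have e2' : ∀ x, f x ≤ p → x ∉ Lv (fun η => ¬ 2 ∣ η) F2 (ω ^ η) := by
    intro x hx hc
    have : x ∈ Lv (fun η => ¬ 2 ∣ η) F2 (ω ^ η) ∩ {x | -p ≤ -1 * f x} :=
      ⟨hc, show -p ≤ -1 * f x by linarith⟩
    rw [b2] at this
    exact this
  have e3 : ∀ x, f x ≤ s → x ∈ Lv (fun η => 2 ∣ η) F3 (ω ^ η) := fun x hx => a3 hx
  have e3' : ∀ x, q ≤ f x → x ∉ Lv (fun η => 2 ∣ η) F3 (ω ^ η) := by
    intro x hx hc
    have : x ∈ Lv (fun η => 2 ∣ η) F3 (ω ^ η) ∩ {x | q ≤ f x} := ⟨hc, hx⟩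
    rw [b3] at this
    exact this
  have e4 : ∀ x, q ≤ f x → x ∈ Lv (fun η => ¬ 2 ∣ η) F4 (ω ^ η) := fun x hx =>
    a4 (show -1 * f x ≤ -q by linarith)
  have e4' : ∀ x, f x ≤ s → x ∉ Lv (fun η => ¬ 2 ∣ η) F4 (ω ^ η) := by
    intro x hx hc
    have : x ∈ Lv (fun η => ¬ 2 ∣ η) F4 (ω ^ η) ∩ {x | -s ≤ -1 * f x} :=
      ⟨hc, show -s ≤ -1 * f x by linarith⟩
    rw [b4] at this
    exact this
  have nn : ∀ (F : Ordinal.{0} → Set X) (x : X), Ok (fun η => ¬ ¬ 2 ∣ η) F (ω ^ η) x →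
      Ok (fun η => 2 ∣ η) F (ω ^ η) x := fun F x h θ hθ k1 k2 => not_not.1 (h θ hθ k1 k2)
  refine toSeq hξ (pre_inter (pre_inter p1 p2) (pre_inter p3 p4)) (pos_of_limit hl) ?_ ?_ ?_
  · intro x
    rcases le_total (f x) s with h | h
    · exact leaves_inter (Or.inr (leaves_inter (Or.inl (leaves_of_lv hl (e3 x h)))))
    · exact leaves_inter (Or.inl (leaves_inter (Or.inr (leaves_of_lv hl (e2 x h)))))
  · intro x hx
    have hx1 : f x ≤ p := hx
    have hx2 : f x ≤ s := hx1.trans hps.le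
    exact ok_inter (ok_inter (ok_of_lv p1 (e1 x hx1)) (nn _ _ (ok_of_not_lv (e2' x hx1))))
      (ok_inter (ok_of_lv p3 (e3 x hx2)) (nn _ _ (ok_of_not_lv (e4' x hx2))))
  · intro x hx
    have hx1 : q ≤ f x := hx
    have hx2 : s ≤ f x := hsq.le.trans hx1
    exact ok_inter (ok_inter (ok_of_not_lv (e1' x hx2)) (ok_of_lv p2 (e2 x hx2)))
      (ok_inter (ok_of_not_lv (e3' x hx1)) (ok_of_lv p4 (e4 x hx1)))

lemma lower (hD : Dich) (hF : Fun) (hξ : 1 ≤ ξ) (hξ' : ξ < ω_ 1) (h1 : P1 ξ ρ)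
    (h2 : P2 ξ ρ) (h4 : P4 ξ ρ) {η : Ordinal.{0}} (hη : 1 ≤ η) (hη' : η < ω_ 1) {f : X → ℝ}
    (hf : IsBddBaire ξ f) (hρ : ρ X f ≤ ω ^ η) : alpha ξ f ≤ ω ^ η := by
  refine Ordinal.iSup_le ?_
  rintro ⟨⟨p, q⟩, hpq⟩
  have hpq' : (p : ℝ) < (q : ℝ) := by exact_mod_cast hpq
  obtain ⟨G, g1, g2, g3⟩ := lowerSeq hD hF hξ hξ' h1 h2 h4 hη hη' ⟨hf, hρ⟩ hpq'
  exact sepRank_le g1 g2 g3

lemma transDiff_cls {lam : Ordinal.{0}} (hlam : lam < ω_ 1) {F : Ordinal.{0} → Set X}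
    (hF : IsPiSeq ξ F lam) (P : Ordinal.{0} → Prop) (hξ : 1 ≤ ξ) :
    SigmaZero (ξ + 1) (Lv P F lam) := by
  have h1 : 1 ≤ ξ + 1 := hξ.trans (le_self_add)
  have e : Lv P F lam = ⋃ η ∈ {η | η < lam ∧ P η}, F η ∩ (F (η + 1))ᶜ := by
    ext x
    simp only [Lv, mem_ofPred_eq, mem_iUnion]
    constructor
    · rintro ⟨η, h1, h2, h3, h4⟩
      exact ⟨η, ⟨h1, h2⟩, h3, h4⟩
    · rintro ⟨η, ⟨h1, h2⟩, h3, h4⟩
      exact ⟨η, h1, h2, h3, h4⟩
  rw [e]
  refine sigma_biUnion h1 ((countable_Iio_of_lt hlam).mono fun η hη => hη.1) fun η _ => ?_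
  exact sigma_inter (sigma_compl_lt (Order.lt_add_one_iff.2 le_rfl) (hF.cls η))
    (sigma_mono le_self_add (hF.cls _))

lemma upper (hF : Fun) (hξ : 1 ≤ ξ) (h1 : P1 ξ ρ) (h2 : P2 ξ ρ) (h3 : P3 ξ ρ) {f : X → ℝ}
    (hf : IsBddBaire ξ f) {η : Ordinal.{0}} (hη : 1 ≤ η) (hη' : η < ω_ 1)
    (hα : alpha ξ f ≤ ω ^ η) : ρ X f ≤ ω ^ η := by
  classical
  obtain ⟨M0, hM0⟩ := hf.1
  obtain ⟨M, hM⟩ := exists_nat_ge M0
  have hfM : ∀ x, |f x| ≤ M := fun x => (hM0 x).trans hM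
  -- separating sets
  have sep : ∀ p q : ℚ, p < q → ∃ G : Set X, {x | f x ≤ (p : ℝ)} ⊆ G ∧
      (∀ x ∈ G, f x < (q : ℝ)) ∧ Good ξ ρ (ω ^ η) (G.indicator (fun _ => (1 : ℝ))) := by
    intro p q hpq
    have hle : sepRank ξ {x | f x ≤ (p : ℝ)} {x | (q : ℝ) ≤ f x} ≤ ω ^ η :=
      (Ordinal.le_iSup (fun pq : {pq : ℚ × ℚ // pq.1 < pq.2} =>
        sepRank ξ {x | f x ≤ (pq.1.1 : ℝ)} {x | (pq.1.2 : ℝ) ≤ f x}) ⟨(p, q), hpq⟩).trans hα
    obtain ⟨lam, hlam, F, hFs, g1, g2⟩ := exists_seq (opow_lt_omega_one hη') hle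
    have hlam' : lam < ω_ 1 := lt_of_le_of_lt hlam (opow_lt_omega_one hη')
    have k2 : SigmaZero (ξ + 1) (transDiff F lam) := transDiff_cls hlam' hFs _ hξ
    have k1 : SigmaZero (ξ + 1) (transDiff F lam)ᶜ := by
      have e := lv_ofSeq' hFs hlam (opow_limit hη)
      have e2 : Lv (fun η => ¬ 2 ∣ η) F (ω ^ η) = Lv (fun η => ¬ 2 ∣ η) F lam := by
        ext x
        constructor
        · rintro ⟨θ, -, m2, m3, m4⟩
          refine ⟨θ, ?_, m2, m3, m4⟩
          by_contra hc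
          rw [hFs.vanish θ (not_lt.1 hc)] at m3
          exact m3
        · rintro ⟨θ, m1, m2, m3, m4⟩
          exact ⟨θ, lt_of_lt_of_le m1 hlam, m2, m3, m4⟩
      rw [← e, e2]
      exact transDiff_cls hlam' hFs _ hξ
    refine ⟨transDiff F lam, g1, ?_, ?_⟩
    · intro x hx
      by_contra hc
      have : x ∈ transDiff F lam ∩ {x | (q : ℝ) ≤ f x} := ⟨hx, not_lt.1 hc⟩
      rw [g2] at this
      exact this
    · have k3 : SigmaZero (ξ + 1) (transDiff F lam)ᶜᶜ := by rw [compl_compl]; exact k2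
      have hg : Good ξ ρ (ω ^ η) ((transDiff F lam)ᶜ.indicator (fun _ => (1 : ℝ))) := by
        refine ⟨baire_ind hF hξ k1 k3, (h1 X _ k1 k3).1 η hη hη' ?_⟩
        refine alpha_indicator hξ (two_le_opow hη) ?_
        rw [compl_compl]
        exact (sepRank_le hFs subset_rfl (inter_compl_self _)).trans hlam
      have := good_compl hF hξ h1 h2 hη hη' hg
      rwa [compl_compl] at this
  choose G hG1 hG2 hG3 using sep
  -- thresholds
  let t : ℕ → ℕ → ℚ := fun n i => -(M : ℚ) + (i : ℚ) / ((n : ℚ) + 1)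
  have ht : ∀ n i, t n i < t n (i + 1) := by
    intro n i
    simp only [t]
    have : (i : ℚ) / ((n : ℚ) + 1) < ((i + 1 : ℕ) : ℚ) / ((n : ℚ) + 1) := by
      apply div_lt_div_of_pos_right _ (by positivity)
      push_cast; linarith
    linarith
  let S : ℕ → ℕ → Set X := fun n i => G (t n i) (t n (i + 1)) (ht n i)
  let g : ℕ → ℕ → X → ℝ := fun n K x => ((M : ℝ) + 1) +
    ∑ i ∈ Finset.range K, (-(1 / ((n : ℝ) + 1))) * (S n i).indicator (fun _ => (1 : ℝ)) x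
  have hconst : Good ξ ρ (ω ^ η) (fun _ : X => ((M : ℝ) + 1)) := by
    have := good_mul h2 hη hη' (good_closed (X := X) hF hξ h1 hη hη' isClosed_univ)
      (c := (M : ℝ) + 1) (by positivity)
    simpa using this
  have hgood : ∀ n K, Good ξ ρ (ω ^ η) (g n K) := by
    intro n K
    induction K with
    | zero =>
      have : g n 0 = fun _ : X => ((M : ℝ) + 1) := by
        funext x; simp [g]
      rw [this]; exact hconst
    | succ K ih =>
      have : g n (K + 1) = fun x => g n K x +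
          (-(1 / ((n : ℝ) + 1))) * (S n K).indicator (fun _ => (1 : ℝ)) x := by
        funext x
        simp only [g]
        rw [Finset.sum_range_succ]; ring
      rw [this]
      refine good_add hF hξ h2 hη hη' ih (good_mul h2 hη hη' (hG3 _ _ _) ?_)
      have : (0 : ℝ) < 1 / ((n : ℝ) + 1) := by positivity
      linarith
  let KK : ℕ → ℕ := fun n => (2 * M + 1) * (n + 1)
  have hclose : ∀ n x, |f x - g n (KK n) x| ≤ 1 / ((n : ℝ) + 1) := by
    intro n x
    have hn : (0 : ℝ) < (n : ℝ) + 1 := by positivity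
    obtain ⟨hx1, hx2⟩ := abs_le.1 (hfM x)
    have hy0 : 0 ≤ (f x + M) * ((n : ℝ) + 1) := by
      apply mul_nonneg _ hn.le; linarith
    set j := ⌊(f x + M) * ((n : ℝ) + 1)⌋₊ with hj
    have hj1 : (j : ℝ) ≤ (f x + M) * ((n : ℝ) + 1) := Nat.floor_le hy0
    have hj2 : (f x + M) * ((n : ℝ) + 1) < (j : ℝ) + 1 := Nat.lt_floor_add_one _
    have hjK : j + 1 ≤ KK n := by
      have h5 : (j : ℝ) < ((KK n : ℕ) : ℝ) := by
        refine lt_of_le_of_lt hj1 ?_
        simp only [KK]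
        push_cast
        apply mul_lt_mul_of_pos_right _ hn
        linarith
      exact_mod_cast h5
    have hcast : ∀ i : ℕ, ((t n i : ℚ) : ℝ) = -(M : ℝ) + (i : ℝ) / ((n : ℝ) + 1) := by
      intro i; simp only [t]; push_cast; ring
    -- the values of the indicators
    have hle : ∀ i ∈ Finset.range (KK n), (S n i).indicator (fun _ => (1 : ℝ)) x ≤
        if j ≤ i then (1 : ℝ) else 0 := by
      intro i _
      by_cases hi : j ≤ i
      · rw [if_pos hi]
        by_cases hm : x ∈ S n i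
        · rw [indicator_of_mem hm]
        · rw [indicator_of_notMem hm]; norm_num
      · rw [if_neg hi]
        have hm : x ∉ S n i := by
          intro hm
          have h5 := hG2 _ _ _ x hm
          rw [hcast] at h5
          have h6 : ((i + 1 : ℕ) : ℝ) ≤ (j : ℝ) := by exact_mod_cast (not_le.1 hi)
          have h7 : ((i + 1 : ℕ) : ℝ) / ((n : ℝ) + 1) ≤ f x + M := by
            rw [div_le_iff₀ hn]; linarith
          linarith
        rw [indicator_of_notMem hm]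
    have hge : ∀ i ∈ Finset.range (KK n), (if j + 1 ≤ i then (1 : ℝ) else 0) ≤
        (S n i).indicator (fun _ => (1 : ℝ)) x := by
      intro i _
      by_cases hi : j + 1 ≤ i
      · rw [if_pos hi]
        have hm : x ∈ S n i := by
          apply hG1
          show f x ≤ ((t n i : ℚ) : ℝ)
          rw [hcast]
          have h6 : ((j + 1 : ℕ) : ℝ) ≤ (i : ℝ) := by exact_mod_cast hi
          push_cast at h6
          have h7 : f x + M ≤ (i : ℝ) / ((n : ℝ) + 1) := by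
            rw [le_div_iff₀ hn]; linarith
          linarith
        rw [indicator_of_mem hm]
      · rw [if_neg hi]
        exact indicator_nonneg (fun _ _ => zero_le_one) x
    have s1 := Finset.sum_le_sum hle
    have s2 := Finset.sum_le_sum hge
    rw [cnt] at s1 s2
    set sg := ∑ i ∈ Finset.range (KK n), (S n i).indicator (fun _ => (1 : ℝ)) x with hsg
    have hg : g n (KK n) x = ((M : ℝ) + 1) - sg / ((n : ℝ) + 1) := by
      simp only [g]
      rw [← Finset.mul_sum, ← hsg]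
      ring
    rw [Nat.cast_sub (by omega)] at s1
    rw [Nat.cast_sub hjK] at s2
    push_cast at s2
    have hKK : ((KK n : ℕ) : ℝ) = (2 * (M : ℝ) + 1) * ((n : ℝ) + 1) := by
      simp only [KK]; push_cast; ring
    rw [hKK] at s1 s2
    rw [hg, abs_le]
    have key : sg / ((n : ℝ) + 1) * ((n : ℝ) + 1) = sg := by field_simp
    have key2 : 1 / ((n : ℝ) + 1) * ((n : ℝ) + 1) = 1 := by field_simp
    constructor
    · refine le_of_mul_le_mul_right ?_ hn
      nlinarith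
    · refine le_of_mul_le_mul_right ?_ hn
      nlinarith
  have hunif : TendstoUniformly (fun n => g n (KK n)) f atTop := by
    rw [Metric.tendstoUniformly_iff]
    intro ε hε
    have hev : ∀ᶠ n : ℕ in atTop, 1 / ((n : ℝ) + 1) < ε :=
      tendsto_one_div_add_atTop_nhds_zero_nat.eventually (gt_mem_nhds hε)
    filter_upwards [hev] with n hn x
    rw [Real.dist_eq]
    exact lt_of_le_of_lt (hclose n x) hn
  refine h3 X f (fun n => g n (KK n)) hf (fun n => (hgood n _).1) hunif η hη hη' ?_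
  exact Ordinal.iSup_le fun n => (hgood n _).2

end Rank

/-- the theorem, from the dichotomy and the lemma on functions -/
theorem main (hD : Dich) (hF : Fun) (ξ : Ordinal.{0}) (hξ : 1 ≤ ξ) (hξ' : ξ < ω_ 1)
    (ρ : RankFamily) (h1 : P1 ξ ρ) (h2 : P2 ξ ρ) (h3 : P3 ξ ρ) (h4 : P4 ξ ρ)
    (X : Type) [TopologicalSpace X] [PolishSpace X] (f : X → ℝ) (hf : IsBddBaire ξ f) :
    Approx (ρ X f) (alpha ξ f) :=
  ⟨fun _ hη hη' h => upper hF hξ h1 h2 h3 hf hη hη' h,
    fun _ hη hη' h => lower hD hF hξ hξ' h1 h2 h4 hη hη' hf h⟩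

end Pool.Agent.Q215.SR
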