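import Pool.Agent.Q215.SR.Seq

/-!
The separation dichotomy.
-/

set_option autoImplicit false

open Set Topology Filter Ordinal

namespace Pool.Agent.Q215.SR

/-- the separation dichotomy -/
def Dich : Prop :=
  ∀ (X : Type) [TopologicalSpace X] [PolishSpace X] (ξ lam : Ordinal.{0}), 1 ≤ ξ → ξ < ω_ 1 →
    lam < ω_ 1 → Order.IsSuccLimit lam → ∀ (P : Ordinal.{0} → Prop) (A B : Set X)
    (ζ : Ordinal.{0}), SigmaZero ζ Aᶜ → SigmaZero ζ Bᶜ →
    (∃ F : Ordinal.{0} → Set X, Pre ξ F lam ∧ A ⊆ Lv P F lam ∧ Lv P F lam ∩ B = ∅) ∨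
    ∃ (k : (ℕ → Bool) → X) (C : Set (ℕ → Bool)), Continuous k ∧
      (∀ G : Ordinal.{0} → Set (ℕ → Bool), Pre ξ G lam → C ≠ Lv P G lam) ∧
      (∀ z ∈ C, k z ∈ A) ∧ ∀ z, z ∉ C → k z ∈ B

lemma pos_of_limit {lam : Ordinal.{0}} (h : Order.IsSuccLimit lam) : 0 < lam := h.bot_lt

lemma countable_Iio_of_lt {lam : Ordinal.{0}} (h : lam < ω_ 1) : (Set.Iio lam).Countable := by
  rw [← Cardinal.le_aleph0_iff_set_countable, Cardinal.mk_Iio_ordinal]
  simp only [Cardinal.lift_le_aleph0]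
  rw [← Cardinal.ord_aleph, Cardinal.lt_ord, Cardinal.lt_aleph_one_iff] at h
  exact h

lemma lv_meas {X : Type} [TopologicalSpace X] [MeasurableSpace X] [BorelSpace X]
    {ξ lam : Ordinal.{0}} (hlam : lam < ω_ 1) (hl : Order.IsSuccLimit lam)
    {F : Ordinal.{0} → Set X} (hF : Pre ξ F lam) (P : Ordinal.{0} → Prop) :
    MeasurableSet (Lv P F lam) := by
  have e : Lv P F lam = ⋃ η ∈ {η | η < lam ∧ P η}, F η \ F (η + 1) := by
    ext x
    simp only [Lv, mem_ofPred_eq, mem_iUnion, Set.mem_sdiff]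
    constructor
    · rintro ⟨η, h1, h2, h3, h4⟩
      exact ⟨η, ⟨h1, h2⟩, h3, h4⟩
    · rintro ⟨η, ⟨h1, h2⟩, h3, h4⟩
      exact ⟨η, h1, h2, h3, h4⟩
  rw [e]
  refine MeasurableSet.biUnion ((countable_Iio_of_lt hlam).mono fun η hη => hη.1) ?_
  rintro η ⟨h1, -⟩
  have h2 : η + 1 < lam := by rw [← Order.succ_eq_add_one]; exact hl.succ_lt h1
  exact (MeasurableSet.compl_iff.1 (sigma_meas (hF.cls η h1))).diff
    (MeasurableSet.compl_iff.1 (sigma_meas (hF.cls _ h2)))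

theorem dich (hw : S_wadge) (hs : S_surj) (hv : S_vaught) (ht : S_transfer) (hu : S_univ)
    (hd : S_diag) : Dich := by
  intro X _ _ ξ lam hξ hξ' hlam hl P A B ζ hA hB
  rcases isEmpty_or_nonempty X with hX | hX
  · left
    refine ⟨fun _ => univ, ⟨fun η hη => ?_, fun _ _ _ => subset_rfl, rfl, fun η _ _ => ?_⟩,
      fun x _ => isEmptyElim x, ?_⟩
    · rw [compl_univ]; exact sigma_open hξ isOpen_empty
    · ext x; exact isEmptyElim x
    · ext x; exact isEmptyElim x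
  obtain ⟨π, h1, h2, h3⟩ := hs X
  obtain ⟨F0, hF0, hdiag⟩ := hd t_cls (hu t_cls) ξ lam hξ hξ' hlam hl P
  let _ : MeasurableSpace X := borel X
  have _ : BorelSpace X := ⟨rfl⟩
  have m1 : MeasurableSet A := MeasurableSet.compl_iff.1 (sigma_meas hA)
  have m2 : MeasurableSet B := MeasurableSet.compl_iff.1 (sigma_meas hB)
  have m3 : MeasurableSet (Lv P F0 lam)ᶜ := (lv_meas hlam hl hF0 P).compl
  rcases hw (π ⁻¹' A) (π ⁻¹' B) (Lv P F0 lam)ᶜ (h1.measurable m1) (h1.measurable m2) m3 with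
    ⟨φ, g1, g2, g3⟩ | ⟨ψ, g1, g2, g3⟩
  · right
    exact ⟨fun z => π (φ z), (Lv P F0 lam)ᶜ, h1.comp g1, hdiag, g2, g3⟩
  · left
    refine ht (hv t_cls) X π h1 h2 h3 ξ lam hlam hl P (fun η => ψ ⁻¹' (F0 η))
      (pre_preimage g1 hF0) A B ?_ ?_
    · intro x hx
      rw [lv_preimage]
      exact not_notMem.1 (g2 x hx)
    · rw [lv_preimage, eq_empty_iff_forall_notMem]
      rintro x ⟨hx1, hx2⟩
      exact g3 x hx2 hx1

end Pool.Agent.Q215.SR
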