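import Pool.Agent.Q215.SR.Cls

/-!
Combinations of decreasing sequences.
-/

set_option autoImplicit false

open Set Topology Filter Ordinal

namespace Pool.Agent.Q215.SR

variable {X : Type} [TopologicalSpace X]

/-- `x` can leave the sequence only at stages with the property `P` -/
def Ok (P : Ordinal.{0} → Prop) (F : Ordinal.{0} → Set X) (lam : Ordinal.{0}) (x : X) : Prop :=
  ∀ η, η < lam → x ∈ F η → x ∉ F (η + 1) → P η

lemma pre_preimage {Y : Type} [TopologicalSpace Y] {g : Y → X} (hg : Continuous g)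
    {ξ lam : Ordinal.{0}} {F : Ordinal.{0} → Set X} (hF : Pre ξ F lam) :
    Pre ξ (fun η => g ⁻¹' (F η)) lam where
  cls := fun η hη => by rw [← preimage_compl]; exact sigma_preimage hg (hF.cls η hη)
  anti := fun η θ h => preimage_mono (hF.anti η θ h)
  zero := by rw [hF.zero, preimage_univ]
  cont := fun η hη hl => by
    rw [hF.cont η hη hl]
    simp only [preimage_iInter]

lemma lv_preimage {Y : Type} (g : Y → X) (P : Ordinal.{0} → Prop) (F : Ordinal.{0} → Set X)
    (lam : Ordinal.{0}) : Lv P (fun η => g ⁻¹' (F η)) lam = g ⁻¹' (Lv P F lam) := rfl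

/-- the stage at which a point leaves -/
lemma leave {ξ lam : Ordinal.{0}} {F : Ordinal.{0} → Set X} (hF : Pre ξ F lam) {x : X}
    (h : ∃ η, η < lam ∧ x ∉ F η) : ∃ η, η + 1 < lam ∧ x ∈ F η ∧ x ∉ F (η + 1) := by
  obtain ⟨θ, ⟨hθ, hθx⟩, hmin⟩ : ∃ θ, (θ < lam ∧ x ∉ F θ) ∧ ∀ γ, γ < θ → x ∈ F γ := by
    obtain ⟨θ, hθ, hm⟩ := (Ordinal.lt_wf).has_min {η : Ordinal.{0} | η < lam ∧ x ∉ F η} h
    exact ⟨θ, hθ, fun γ hγ => by_contra fun hc => hm γ ⟨hγ.trans hθ.1, hc⟩ hγ⟩
  rcases Ordinal.zero_or_succ_or_isSuccLimit θ with h0 | ⟨γ, hγ⟩ | hl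
  · exfalso
    rw [h0, hF.zero] at hθx
    exact hθx (mem_univ x)
  · rw [Order.succ_eq_add_one] at hγ
    subst hγ
    exact ⟨γ, hθ, hmin γ (lt_add_one γ), hθx⟩
  · exfalso
    apply hθx
    rw [hF.cont θ hθ hl]
    exact mem_iInter₂.2 fun γ hγ => hmin γ hγ

lemma lv_unique {ξ lam : Ordinal.{0}} {F : Ordinal.{0} → Set X} (hF : Pre ξ F lam) {x : X}
    {η θ : Ordinal.{0}} (h1 : x ∈ F η) (h2 : x ∉ F (η + 1)) (h3 : x ∈ F θ)
    (h4 : x ∉ F (θ + 1)) : η = θ := by
  rcases lt_trichotomy η θ with h | h | h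
  · exact absurd (hF.anti _ _ (Order.add_one_le_of_lt h) h3) h2
  · exact h
  · exact absurd (hF.anti _ _ (Order.add_one_le_of_lt h) h1) h4

lemma ok_of_lv {ξ lam : Ordinal.{0}} {P : Ordinal.{0} → Prop} {F : Ordinal.{0} → Set X}
    (hF : Pre ξ F lam) {x : X} (h : x ∈ Lv P F lam) : Ok P F lam x := by
  obtain ⟨θ, -, hP, h1, h2⟩ := h
  intro η _ h3 h4
  rw [lv_unique hF h3 h4 h1 h2]
  exact hP

lemma ok_of_not_lv {lam : Ordinal.{0}} {P : Ordinal.{0} → Prop} {F : Ordinal.{0} → Set X}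
    {x : X} (h : x ∉ Lv P F lam) : Ok (fun η => ¬ P η) F lam x :=
  fun η hη h1 h2 hP => h ⟨η, hη, hP, h1, h2⟩

lemma lv_of_ok {ξ lam : Ordinal.{0}} {P : Ordinal.{0} → Prop} {F : Ordinal.{0} → Set X}
    (hF : Pre ξ F lam) {x : X} (h : Ok P F lam x) (h2 : ∃ η, η < lam ∧ x ∉ F η) :
    x ∈ Lv P F lam := by
  obtain ⟨η, h3, h4, h5⟩ := leave hF h2
  have h6 : η < lam := (lt_add_one η).trans h3
  exact ⟨η, h6, h η h6 h4 h5, h4, h5⟩

lemma leaves_of_lv {lam : Ordinal.{0}} (hl : Order.IsSuccLimit lam) {P : Ordinal.{0} → Prop}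
    {F : Ordinal.{0} → Set X} {x : X} (h : x ∈ Lv P F lam) : ∃ η, η < lam ∧ x ∉ F η := by
  obtain ⟨η, h1, -, -, h2⟩ := h
  exact ⟨η + 1, by rw [← Order.succ_eq_add_one]; exact hl.succ_lt h1, h2⟩

lemma pre_inter [PolishSpace X] {ξ lam : Ordinal.{0}} {F G : Ordinal.{0} → Set X}
    (hF : Pre ξ F lam) (hG : Pre ξ G lam) : Pre ξ (fun η => F η ∩ G η) lam where
  cls := fun η hη => by
    rw [compl_inter]
    exact sigma_union (hF.cls η hη) (hG.cls η hη)
  anti := fun η θ h => inter_subset_inter (hF.anti η θ h) (hG.anti η θ h)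
  zero := by rw [hF.zero, hG.zero, inter_univ]
  cont := fun η hη hl => by
    rw [hF.cont η hη hl, hG.cont η hη hl]
    ext x
    simp only [mem_inter_iff, mem_iInter]
    exact ⟨fun h θ hθ => ⟨h.1 θ hθ, h.2 θ hθ⟩, fun h => ⟨fun θ hθ => (h θ hθ).1,
      fun θ hθ => (h θ hθ).2⟩⟩

lemma ok_inter {lam : Ordinal.{0}} {P : Ordinal.{0} → Prop} {F G : Ordinal.{0} → Set X} {x : X}
    (hF : Ok P F lam x) (hG : Ok P G lam x) : Ok P (fun η => F η ∩ G η) lam x := by
  intro η hη h1 h2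
  by_cases h3 : x ∈ F (η + 1)
  · exact hG η hη h1.2 fun h4 => h2 ⟨h3, h4⟩
  · exact hF η hη h1.1 h3

lemma leaves_inter {lam : Ordinal.{0}} {F G : Ordinal.{0} → Set X} {x : X}
    (h : (∃ η, η < lam ∧ x ∉ F η) ∨ ∃ η, η < lam ∧ x ∉ G η) :
    ∃ η, η < lam ∧ x ∉ F η ∩ G η := by
  rcases h with ⟨η, h1, h2⟩ | ⟨η, h1, h2⟩
  · exact ⟨η, h1, fun h => h2 h.1⟩
  · exact ⟨η, h1, fun h => h2 h.2⟩

/-- from a sequence which every point leaves to a sequence in the sense of the definition -/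
lemma toSeq [PolishSpace X] {ξ lam : Ordinal.{0}} (hξ : 1 ≤ ξ) {F : Ordinal.{0} → Set X}
    (hF : Pre ξ F lam) (hpos : 0 < lam) (hall : ∀ x, ∃ η, η < lam ∧ x ∉ F η) {B C : Set X}
    (hB : ∀ x ∈ B, Ok (fun η => 2 ∣ η) F lam x)
    (hC : ∀ x ∈ C, Ok (fun η => ¬ 2 ∣ η) F lam x) :
    ∃ G : Ordinal.{0} → Set X, IsPiSeq ξ G lam ∧ B ⊆ transDiff G lam ∧
      transDiff G lam ∩ C = ∅ := by
  classical
  refine ⟨fun η => if η < lam then F η else ∅, ?_, ?_, ?_⟩
  · constructor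
    · intro η
      split_ifs with h
      · exact hF.cls η h
      · rw [compl_empty]; exact sigma_open hξ isOpen_univ
    · intro η θ h
      by_cases h1 : θ < lam
      · simp only [if_pos h1, if_pos (lt_of_le_of_lt h h1)]
        exact hF.anti η θ h
      · simp only [if_neg h1]
        exact empty_subset _
    · simp only [if_pos hpos]
      exact hF.zero
    · intro η hη hl
      simp only [if_pos hη]
      rw [hF.cont η hη hl]
      refine iInter₂_congr fun θ hθ => ?_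
      rw [if_pos (lt_trans hθ hη)]
    · intro hl
      rw [eq_empty_iff_forall_notMem]
      intro x hx
      obtain ⟨η, h1, h2⟩ := hall x
      have h3 := mem_iInter₂.1 hx η h1
      rw [if_pos h1] at h3
      exact h2 h3
    · intro η hη
      simp only [if_neg (not_lt.2 hη)]
  · intro x hx
    obtain ⟨η, h1, h2, h3⟩ := leave hF (hall x)
    have h4 : η < lam := (lt_add_one η).trans h1
    refine ⟨η, h4, hB x hx η h4 h2 h3, ?_, ?_⟩
    · simp only [if_pos h4]; exact h2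
    · simp only [if_pos h1]; exact h3
  · rw [eq_empty_iff_forall_notMem]
    rintro x ⟨⟨η, h1, h2, h3, h4⟩, hx⟩
    simp only [if_pos h1] at h3
    -- the point leaves `F` at a stage before `lam`
    obtain ⟨θ, k1, k2, k3⟩ := leave hF (hall x)
    have hθ : θ < lam := (lt_add_one θ).trans k1
    have he : θ = η := by
      rcases lt_trichotomy θ η with h | h | h
      · exact absurd (hF.anti _ _ (Order.add_one_le_of_lt h) h3) k3
      · exact h
      · exfalso
        have h5 : η + 1 ≤ θ := Order.add_one_le_of_lt h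
        have h6 : η + 1 < lam := lt_of_le_of_lt h5 hθ
        simp only [if_pos h6] at h4
        exact h4 (hF.anti _ _ h5 k2)
    rw [he] at k2 k3
    exact hC x hx η h1 k2 k3 h2

/-- from a sequence in the sense of the definition to `Pre` -/
lemma ofSeq {ξ lam mu : Ordinal.{0}} {F : Ordinal.{0} → Set X} (hF : IsPiSeq ξ F lam)
    (h : lam ≤ mu) (hl : Order.IsSuccLimit mu) :
    Pre ξ F mu ∧ ∀ x, ∃ η, η < mu ∧ x ∉ F η := by
  constructor
  · refine ⟨fun η _ => hF.cls η, hF.anti, hF.zero, fun η _ hη => ?_⟩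
    rcases lt_trichotomy η lam with h1 | h1 | h1
    · exact hF.cont η h1 hη
    · rw [hF.vanish η h1.ge]
      subst h1
      exact (hF.last hη).symm
    · rw [hF.vanish η h1.le]
      symm
      rw [eq_empty_iff_forall_notMem]
      intro x hx
      have := mem_iInter₂.1 hx lam h1
      rw [hF.vanish lam le_rfl] at this
      exact this
  · intro x
    rcases h.lt_or_eq with h1 | h1
    · exact ⟨lam, h1, by rw [hF.vanish lam le_rfl]; exact notMem_empty x⟩
    · subst h1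
      by_contra hc
      push Not at hc
      have h2 : x ∈ ⋂ θ ∈ Set.Iio lam, F θ := mem_iInter₂.2 fun θ hθ => hc θ hθ
      rw [hF.last hl] at h2
      exact h2

end Pool.Agent.Q215.SR
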