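import Pool.Agent.Q215.SR.Defs

/-!
Statements of the lemmas for the theorem on the separation rank, with proofs in words.
-/

set_option autoImplicit false

open Set Topology Filter Ordinal

namespace Pool.Agent.Q215.SR

/-- A continuous decreasing sequence of `Π⁰_ξ` sets of length `lam`, without a condition at the
end. -/
structure Pre {X : Type} [TopologicalSpace X] (ξ : Ordinal.{0}) (F : Ordinal.{0} → Set X)
    (lam : Ordinal.{0}) : Prop where
  cls : ∀ η, η < lam → SigmaZero ξ (F η)ᶜ
  anti : ∀ η θ, η ≤ θ → F θ ⊆ F η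
  zero : F 0 = Set.univ
  cont : ∀ η, η < lam → Order.IsSuccLimit η → F η = ⋂ θ ∈ Set.Iio η, F θ

/-- The points which leave the sequence at a stage with the property `P`. -/
def Lv {X : Type} (P : Ordinal.{0} → Prop) (F : Ordinal.{0} → Set X) (lam : Ordinal.{0}) : Set X :=
  {x | ∃ η, η < lam ∧ P η ∧ x ∈ F η ∧ x ∉ F (η + 1)}

/-- **S_wadge** (the separation game). Player I plays the bits `z 0, z 1, …`, player II the
numbers `x 0, x 1, …`, in the order `z 0, x 0, z 1, x 1, …`. Player II wins if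
`(z ∈ C and x ∈ A) or (z ∉ C and x ∈ B)`. Use `Q203.BD.borel_determinacy` (file
`Pool/Agent/Q203/BD/Main.lean`) with `X := ℕ`, moves of player I decoded by `m ↦ decide (m = 0)`
say (so every number is a legal move), and the payoff set for the first player
`{w | ¬ ((z w ∈ C ∧ x w ∈ A) ∨ (z w ∉ C ∧ x w ∈ B))}` with `z w n = decide (w (2 * n) = 0)`,
`x w n = w (2 * n + 1)`; these maps are continuous, hence measurable, so the payoff set is Borel
(`borel (ℕ → ℕ)` equals the product measurable structure). If player II has a winning strategy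
`τ`, define for `z` the play `w` in which I plays a code of `z n` (0 for true, 1 for false) and II
follows `τ` (recursion on `n`), and `φ z n = w (2 * n + 1)`; each coordinate of `φ z` depends on
finitely many coordinates of `z`, so `φ` is continuous. If player I has a winning strategy `σ`,
define for `x` the play `w` in which II plays `x` and I follows `σ`, and
`ψ x n = decide (w (2 * n) = 0)`; it is continuous for the same reason, and since I wins:
`x ∈ A` implies `ψ x ∉ C`, and `x ∈ B` implies `ψ x ∈ C`.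
(A similar development is in `Pool/Agent/Q214/BD2/A.lean`, e.g. `exists_rec`, `hist_congr`.) -/
def S_wadge : Prop :=
  ∀ (A B : Set (ℕ → ℕ)) (C : Set (ℕ → Bool)), MeasurableSet A → MeasurableSet B →
    MeasurableSet C →
    (∃ φ : (ℕ → Bool) → (ℕ → ℕ), Continuous φ ∧ (∀ z ∈ C, φ z ∈ A) ∧ (∀ z, z ∉ C → φ z ∈ B)) ∨
    (∃ ψ : (ℕ → ℕ) → (ℕ → Bool), Continuous ψ ∧ (∀ x ∈ A, ψ x ∉ C) ∧ (∀ x ∈ B, ψ x ∈ C))

/-- **S_surj**. Every nonempty Polish space is a continuous open image of the Baire space. Proof: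
fix a complete metric (`TopologicalSpace.upgradeIsCompletelyMetrizable X`). For every nonempty
open `U` and `ε > 0` there is a sequence `(V_n)` of nonempty open sets with union `U`,
`closure (V_n) ⊆ U` and `diam V_n ≤ ε` (balls with centres in a countable dense set: the countable
family of all balls `ball d r`, `d` in the dense sequence, `r` positive rational, `r ≤ ε/2`, with
`closedBall d r ⊆ U`, is nonempty; enumerate it with repetitions). By recursion on
the length get nonempty open `U_s` (`s : List ℕ`, last entry first) with `U_[] = univ`,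
`U_s = ⋃_n U_(n :: s)`, `closure (U_(n :: s)) ⊆ U_s`, `diam U_s ≤ 2^{-|s|}` for `s ≠ []`. For
`y : ℕ → ℕ` the set `⋂_n U_(y|n)` is one point `π y` (completeness; a decreasing sequence of
nonempty closed sets with diameters tending to 0, `closure` inside the previous set). `π` is
continuous (`π y ∈ U_(y|n)` and diameters tend to 0), onto and open: the image of the basic open
set of all `y` with `y|n = s` is `U_s` (for `x ∈ U_s` continue `s` step by step by
`U_t = ⋃ U_(n :: t)`). -/
def S_surj : Prop :=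
  ∀ (X : Type) [TopologicalSpace X] [PolishSpace X] [Nonempty X],
    ∃ π : (ℕ → ℕ) → X, Continuous π ∧ Function.Surjective π ∧ IsOpenMap π

/-- the set of the points `x` for which `S` is comeager in the part in `U` of the fibre over
`x` -/
def Vt {X : Type} (π : (ℕ → ℕ) → X) (U S : Set (ℕ → ℕ)) : Set X :=
  {x | {y : (π ⁻¹' {x} : Set (ℕ → ℕ)) | (y : ℕ → ℕ) ∈ U → (y : ℕ → ℕ) ∈ S} ∈
    residual (π ⁻¹' {x} : Set (ℕ → ℕ))}

/-- closure properties of the classes on Polish spaces (proved in the file `Cls`) -/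
def S_cls : Prop :=
  (∀ (X : Type) [TopologicalSpace X] [PolishSpace X] (η ξ : Ordinal.{0}) (A : Set X),
    η ≤ ξ → SigmaZero η A → SigmaZero ξ A) ∧
  (∀ (X : Type) [TopologicalSpace X] [PolishSpace X] (η ξ : Ordinal.{0}) (A : Set X),
    η < ξ → SigmaZero η Aᶜ → SigmaZero ξ A) ∧
  (∀ (X : Type) [TopologicalSpace X] [PolishSpace X] (ξ : Ordinal.{0}) (A : ℕ → Set X),
    (∀ n, SigmaZero ξ (A n)) → SigmaZero ξ (⋃ n, A n)) ∧
  (∀ (X : Type) [TopologicalSpace X] [PolishSpace X] (ξ : Ordinal.{0}) (A B : Set X),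
    SigmaZero ξ A → SigmaZero ξ B → SigmaZero ξ (A ∩ B))

/-- **S_vaught** (Vaught transform). `π` continuous, onto, open. If `S` is `Π⁰_ξ` then the set of
all `x` such that `S` is comeager in `U ∩ π⁻¹(x)` is `Π⁰_ξ`, for every open `U`. Proof by
induction on `ξ` (for all open `U`). The fibres are closed subsets of the Baire space, so they are
Polish and Baire spaces.
`ξ = 1`: `S` closed. `S` is comeager in the part in `U` of the fibre iff `U ∩ fibre ⊆ S` (an open
nonempty subset of a Baire space is not meager, and `U ∩ fibre \ S` is open in the fibre), so the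
complement of `Vt π U S` is `π '' (U \ S)`, an open set.
`1 < ξ`: `Sᶜ = ⋃ₙ Aₙ` with `(Aₙ)ᶜ` of class `SigmaZero (ηₙ)`, `1 ≤ ηₙ < ξ`, so `Aₙ` is `Π⁰_{ηₙ}`;
`S = ⋂ₙ (Aₙ)ᶜ` and `Vt π U S = ⋂ₙ Vt π U (Aₙ)ᶜ` (the filter `residual` has countable
intersections). For fixed `n` the complement of `Vt π U (Aₙ)ᶜ` is the set of all `x` such that
`Aₙ` is not meager in `U ∩ fibre`; since `Aₙ` is Borel it has the Baire property in the fibre
(`MeasurableSet.residualEq_isOpen`), so this holds iff there is a member `V ⊆ U` of a fixed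
countable basis of the Baire space (e.g. all cylinders) with `V ∩ fibre ≠ ∅` and `Aₙ` comeager in
`V ∩ fibre`; i.e. the complement is `⋃_V (π '' V ∩ Vt π V Aₙ)`, where `π '' V` is open and
`Vt π V Aₙ` is `Π⁰_{ηₙ}`. So the complement of `Vt π U S` is a countable union of sets
`W ∩ T` with `W` open and `T` of class `Π⁰_η`, `η < ξ`; each is of class `SigmaZero ξ` by
`S_cls` (`T` is by the second part, `W` by the first part with `η = 1`). -/
def S_vaught : Prop :=
  S_cls → ∀ (X : Type) [TopologicalSpace X] [PolishSpace X] (π : (ℕ → ℕ) → X), Continuous π →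
    Function.Surjective π → IsOpenMap π → ∀ (ξ : Ordinal.{0}) (S U : Set (ℕ → ℕ)), IsOpen U →
      SigmaZero ξ Sᶜ → SigmaZero ξ (Vt π U S)ᶜ

/-- the conclusion of `S_vaught` -/
def Vaught : Prop :=
  ∀ (X : Type) [TopologicalSpace X] [PolishSpace X] (π : (ℕ → ℕ) → X), Continuous π →
    Function.Surjective π → IsOpenMap π → ∀ (ξ : Ordinal.{0}) (S U : Set (ℕ → ℕ)), IsOpen U →
      SigmaZero ξ Sᶜ → SigmaZero ξ (Vt π U S)ᶜ

/-- **S_transfer**. Put `G η = Vt π univ (F η)` for `η < lam` and (to keep `anti`) for all `η`.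
`Pre ξ G lam`: the classes by `Vaught`; monotone since comeager sets are closed under supersets;
`G 0 = univ`; at limits `η < lam < ω₁` a countable intersection of comeager sets is comeager
(`η` is countable: `Set.Iio η` is countable, use `countable_bInter_mem` for the filter
`residual`), and conversely by monotonicity.
Let `x ∈ A`, so the fibre over `x` (nonempty, Baire) is contained in `Lv P F lam`. If `x ∈ G η` for
all `η < lam`, then `⋂_{η < lam} F η` is comeager in the fibre, hence contains a point `y` of the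
fibre; but `y ∈ F (η + 1)` for all `η < lam` as `lam` is a limit, contradicting `y ∈ Lv P F lam`.
So there is a least `θ < lam` with `x ∉ G θ`; `θ ≠ 0` and `θ` is not a limit, so `θ = η + 1`,
`x ∈ G η`. As `F η` is comeager in the fibre and `F (η + 1)` is not, there is `y` in the fibre with
`y ∈ F η`, `y ∉ F (η + 1)`. Since `y ∈ Lv P F lam`, `y` leaves `F` at a stage `η'` with `P η'`, and
`η' = η` by monotonicity. So `P η` and `x ∈ Lv P G lam`.
Let `x ∈ Lv P G lam ∩ B`: as before there is `y` in the fibre over `x`, `y ∈ F η`,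
`y ∉ F (η + 1)`, `P η`, so `y ∈ Lv P F lam ∩ π ⁻¹' B`, contradiction. -/
def S_transfer : Prop :=
  Vaught → ∀ (X : Type) [TopologicalSpace X] [PolishSpace X] (π : (ℕ → ℕ) → X), Continuous π →
    Function.Surjective π → IsOpenMap π → ∀ (ξ lam : Ordinal.{0}), lam < ω_ 1 →
    Order.IsSuccLimit lam → ∀ (P : Ordinal.{0} → Prop) (F : Ordinal.{0} → Set (ℕ → ℕ)),
    Pre ξ F lam → ∀ (A B : Set X), π ⁻¹' A ⊆ Lv P F lam → Lv P F lam ∩ π ⁻¹' B = ∅ →
      ∃ G : Ordinal.{0} → Set X, Pre ξ G lam ∧ A ⊆ Lv P G lam ∧ Lv P G lam ∩ B = ∅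

/-- **S_univ** (universal sets). There is `W ⊆ 2^ω × 2^ω`, given as a relation, such that for
continuous `g` the set `{x | W (g x) x}` is `Π⁰_ξ` and every `Π⁰_ξ` set is a section `{x | W z x}`.
By induction on `ξ`, `1 ≤ ξ < ω₁`. For `ξ = 1`: fix a countable basis `(V_n)` of `ℕ → Bool` (with
`V_n` open for all `n`), `W z x` iff `∀ n, z n = true → x ∉ V_n`. For `1 < ξ`: the set
of the ordinals `ζ` with `1 ≤ ζ < ξ` is countable and nonempty; let `(ζ_n)` be a sequence in it in
which every member occurs infinitely often (e.g. `ζ_(pair a b) = ζ'_a`), `W_ζ` the relations for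
`ζ < ξ`, and `(z)_n k = z (Nat.pair n k)`; put `W z x` iff `∀ n, ¬ W_(ζ_n) (z)_n x`. Then
`{x | W (g x) x}ᶜ = ⋃ₙ {x | W_(ζ_n) ((g x)_n) x}`, a countable union of `Π⁰_{ζ_n}` sets, so it is
`SigmaZero ξ`. If `Sᶜ = ⋃ₖ Aₖ` with `Aₖ` of class `Π⁰_{η_k}`, choose injectively indices `m k` with
`ζ_(m k) = η_k`, put into the `m k`-th section a code of `Aₖ` for `W_(ζ_(m k))`, and into the
other sections a code of the empty set (`∅` is `Π⁰_ζ` for `1 ≤ ζ`, by `S_cls`). -/
def S_univ : Prop :=
  S_cls → ∀ ξ : Ordinal.{0}, 1 ≤ ξ → ξ < ω_ 1 →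
    ∃ W : (ℕ → Bool) → (ℕ → Bool) → Prop,
      (∀ g : (ℕ → Bool) → (ℕ → Bool), Continuous g → SigmaZero ξ {x | W (g x) x}ᶜ) ∧
      ∀ S : Set (ℕ → Bool), SigmaZero ξ Sᶜ → ∃ z, S = {x | W z x}

/-- the conclusion of `S_univ` -/
def Univ : Prop :=
  ∀ ξ : Ordinal.{0}, 1 ≤ ξ → ξ < ω_ 1 →
    ∃ W : (ℕ → Bool) → (ℕ → Bool) → Prop,
      (∀ g : (ℕ → Bool) → (ℕ → Bool), Continuous g → SigmaZero ξ {x | W (g x) x}ᶜ) ∧
      ∀ S : Set (ℕ → Bool), SigmaZero ξ Sᶜ → ∃ z, S = {x | W z x}

/-- **S_diag** (diagonalisation). Let `W` be the universal relation. `lam` is countable and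
infinite; fix `e : Ordinal → ℕ` injective on `Set.Iio lam` and `(z)_n k = z (Nat.pair n k)`. Put
`F η = {x | ∀ θ < min η lam, W ((x)_(e θ)) x}` (or: for all `θ < η` with `θ < lam`). Then
`Pre ξ F lam` (countable intersections; `S_cls` for countable unions of the complements). Suppose
`(Lv P F lam)ᶜ = Lv P G lam` with `Pre ξ G lam`. For `θ < lam` let `c θ` be a code of `G (θ + 1)`
(`θ + 1 < lam`), and let `z` have `(z)_(e θ) = c θ` for all `θ < lam`. Then for all `η < lam`:
`z ∈ F η ↔ ∀ θ < η, z ∈ G (θ + 1) ↔ z ∈ G η` (the second equivalence by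
`G 0 = univ`, monotonicity and continuity of `G` at limits). Hence `z ∈ Lv P F lam` iff
`z ∈ Lv P G lam` (stages `η`, `η + 1 < lam`), a contradiction. -/
def S_diag : Prop :=
  S_cls → Univ → ∀ ξ lam : Ordinal.{0}, 1 ≤ ξ → ξ < ω_ 1 → lam < ω_ 1 → Order.IsSuccLimit lam →
    ∀ P : Ordinal.{0} → Prop, ∃ F : Ordinal.{0} → Set (ℕ → Bool), Pre ξ F lam ∧
      ∀ G : Ordinal.{0} → Set (ℕ → Bool), Pre ξ G lam → (Lv P F lam)ᶜ ≠ Lv P G lam

/-- **S_fun** (closure properties of the functions whose preimages of open sets are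
`SigmaZero ζ`, `ζ ≥ 2`). (a) If `f`, `g` have the property and `k : ℝ × ℝ → ℝ` is continuous, so
has `k (f, g)`: the preimage of an open set `U` under `k` is a countable union of products
`I × J` of open sets (`TopologicalSpace` second countable: `isTopologicalBasis` of products, or
write the open subset of the plane as the union of all rational boxes contained in it); the
preimage of `I × J` is `f ⁻¹' I ∩ g ⁻¹' J`. (b) indicators of sets `A` with `A` and `Aᶜ` of class
`SigmaZero ζ`: the preimage of any set is one of `∅`, `univ`, `A`, `Aᶜ`. (c) the complements of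
`{f ≤ a}`, `{a ≤ f}` are preimages of open sets. -/
def S_fun : Prop :=
  S_cls → ∀ (X : Type) [TopologicalSpace X] [PolishSpace X] (ζ : Ordinal.{0}), 2 ≤ ζ →
    (∀ (f g : X → ℝ) (k : ℝ × ℝ → ℝ), (∀ U, IsOpen U → SigmaZero ζ (f ⁻¹' U)) →
      (∀ U, IsOpen U → SigmaZero ζ (g ⁻¹' U)) → Continuous k →
      ∀ U, IsOpen U → SigmaZero ζ ((fun x => k (f x, g x)) ⁻¹' U)) ∧
    (∀ A : Set X, SigmaZero ζ A → SigmaZero ζ Aᶜ →
      ∀ U : Set ℝ, SigmaZero ζ ((A.indicator (fun _ => (1 : ℝ))) ⁻¹' U))

end Pool.Agent.Q215.SR
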