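import Pool.Agent.Q215.SR.Stm

/-!
Every nonempty Polish space is a continuous open image of the Baire space.
-/

set_option autoImplicit false

open Set Topology Filter

namespace Pool.Agent.Q215.SR

section

variable {X : Type} [MetricSpace X] [SecondCountableTopology X]

lemma cover_balls [Nonempty X] {U : Set X} (hU : IsOpen U) (hne : U.Nonempty) {ε : ℝ}
    (hε : 0 < ε) : ∃ V : ℕ → Set X, (∀ n, IsOpen (V n)) ∧ (∀ n, (V n).Nonempty) ∧
      (⋃ n, V n) = U ∧ (∀ n, closure (V n) ⊆ U) ∧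
      ∀ n, ∀ x ∈ V n, ∀ y ∈ V n, dist x y ≤ ε := by
  set d := TopologicalSpace.denseSeq X with hd
  have hdd : DenseRange d := TopologicalSpace.denseRange_denseSeq X
  set I : Set (ℕ × ℕ) := {p | 1 / ((p.2 : ℝ) + 1) ≤ ε / 2 ∧
    Metric.closedBall (d p.1) (1 / ((p.2 : ℝ) + 1)) ⊆ U} with hI
  have key : ∀ x ∈ U, ∃ p ∈ I, x ∈ Metric.ball (d p.1) (1 / ((p.2 : ℝ) + 1)) := by
    intro x hx
    obtain ⟨δ, hδ, hb⟩ := Metric.isOpen_iff.1 hU x hx
    obtain ⟨k, hk⟩ := exists_nat_one_div_lt (lt_min (half_pos hε) (half_pos hδ))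
    have hk1 : 1 / ((k : ℝ) + 1) < ε / 2 := lt_of_lt_of_le hk (min_le_left _ _)
    have hk2 : 1 / ((k : ℝ) + 1) < δ / 2 := lt_of_lt_of_le hk (min_le_right _ _)
    have hk0 : (0 : ℝ) < 1 / ((k : ℝ) + 1) := by positivity
    obtain ⟨i, hi⟩ := Metric.denseRange_iff.1 hdd x _ hk0
    refine ⟨(i, k), ⟨hk1.le, ?_⟩, ?_⟩
    · intro y hy
      refine hb ?_
      rw [Metric.mem_ball]
      rw [Metric.mem_closedBall] at hy
      calc dist y x ≤ dist y (d i) + dist (d i) x := dist_triangle _ _ _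
        _ < δ / 2 + δ / 2 := by
          have : dist (d i) x < δ / 2 := by
            rw [dist_comm]; exact hi.trans hk2
          have h2 : dist y (d i) < δ / 2 := lt_of_le_of_lt hy hk2
          linarith
        _ = δ := by ring
    · rw [Metric.mem_ball]
      exact hi
  have hIne : I.Nonempty := by
    obtain ⟨x, hx⟩ := hne
    obtain ⟨p, hp, _⟩ := key x hx
    exact ⟨p, hp⟩
  obtain ⟨e, he⟩ := (I.to_countable).exists_eq_range hIne
  have heI : ∀ n, e n ∈ I := fun n => by rw [he]; exact mem_range_self n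
  refine ⟨fun n => Metric.ball (d (e n).1) (1 / (((e n).2 : ℝ) + 1)), fun n => Metric.isOpen_ball,
    fun n => ⟨d (e n).1, Metric.mem_ball_self (by positivity)⟩, ?_, ?_, ?_⟩
  · apply Subset.antisymm
    · refine iUnion_subset fun n => ?_
      exact Metric.ball_subset_closedBall.trans (heI n).2
    · intro x hx
      obtain ⟨p, hp, hxp⟩ := key x hx
      rw [he] at hp
      obtain ⟨n, rfl⟩ := hp
      exact mem_iUnion.2 ⟨n, hxp⟩
  · intro n
    exact Metric.closure_ball_subset_closedBall.trans (heI n).2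
  · intro n x hx y hy
    rw [Metric.mem_ball] at hx hy
    have h1 := (heI n).1
    calc dist x y ≤ dist x (d (e n).1) + dist y (d (e n).1) := dist_triangle_right _ _ _
      _ ≤ ε := by linarith

end

/-- the initial segments, written backwards -/
def pre (y : ℕ → ℕ) : ℕ → List ℕ
  | 0 => []
  | n + 1 => y n :: pre y n

lemma pre_length (y : ℕ → ℕ) (n : ℕ) : (pre y n).length = n := by
  induction n with
  | zero => rfl
  | succ n ih => simp [pre, ih]

lemma pre_congr {y z : ℕ → ℕ} {n : ℕ} (h : ∀ i < n, y i = z i) : pre y n = pre z n := by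
  induction n with
  | zero => rfl
  | succ n ih =>
    simp only [pre]
    rw [h n (Nat.lt_succ_self n), ih fun i hi => h i (Nat.lt_succ_of_lt hi)]

/-- nonempty open sets -/
abbrev NO (X : Type) [TopologicalSpace X] : Type := {U : Set X // IsOpen U ∧ U.Nonempty}

/-- the scheme of open sets -/
def scheme {X : Type} [TopologicalSpace X] [Nonempty X] (T : NO X → ℕ → ℕ → NO X) :
    List ℕ → NO X
  | [] => ⟨univ, isOpen_univ, univ_nonempty⟩
  | n :: s => T (scheme T s) s.length n

theorem t_surj : S_surj := by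
  intro X _ _ _
  let _ := TopologicalSpace.upgradeIsCompletelyMetrizable X
  classical
  have hT : ∀ (U : NO X) (m : ℕ), ∃ V : ℕ → NO X, (⋃ n, (V n).1) = U.1 ∧
      (∀ n, closure (V n).1 ⊆ U.1) ∧
      ∀ n, ∀ x ∈ (V n).1, ∀ y ∈ (V n).1, dist x y ≤ (1 / 2 : ℝ) ^ m := by
    intro U m
    obtain ⟨V, h1, h2, h3, h4, h5⟩ := cover_balls U.2.1 U.2.2
      (show (0 : ℝ) < (1 / 2 : ℝ) ^ m by positivity)
    exact ⟨fun n => ⟨V n, h1 n, h2 n⟩, h3, h4, h5⟩
  choose T hT1 hT2 hT3 using hT
  set S := scheme T with hS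
  have hs0 : (S []).1 = univ := rfl
  have hsU : ∀ s, (⋃ n, (S (n :: s)).1) = (S s).1 := fun s => hT1 _ _
  have hsc : ∀ s n, closure (S (n :: s)).1 ⊆ (S s).1 := fun s n => hT2 _ _ _
  have hsd : ∀ s n, ∀ x ∈ (S (n :: s)).1, ∀ y ∈ (S (n :: s)).1,
      dist x y ≤ (1 / 2 : ℝ) ^ s.length := fun s n => hT3 _ _ _
  have hss : ∀ s n, (S (n :: s)).1 ⊆ (S s).1 := fun s n => subset_closure.trans (hsc s n)
  have hanti : ∀ (y : ℕ → ℕ) (m n : ℕ), m ≤ n → (S (pre y n)).1 ⊆ (S (pre y m)).1 := by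
    intro y m n h
    induction n, h using Nat.le_induction with
    | base => exact Subset.rfl
    | succ n _ ih => exact (hss _ _).trans ih
  have hdiam : ∀ (y : ℕ → ℕ) (n : ℕ), ∀ a ∈ (S (pre y (n + 1))).1, ∀ b ∈ (S (pre y (n + 1))).1,
      dist a b ≤ (1 / 2 : ℝ) ^ n := by
    intro y n a ha b hb
    have := hsd (pre y n) (y n) a ha b hb
    rwa [pre_length] at this
  have hpt : ∀ y : ℕ → ℕ, ∃ x, ∀ n, x ∈ (S (pre y n)).1 := by
    intro y
    choose a ha using fun n => (S (pre y n)).2.2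
    have hcau : CauchySeq a := by
      rw [Metric.cauchySeq_iff']
      intro ε hε
      obtain ⟨n, hn⟩ := exists_pow_lt_of_lt_one hε (by norm_num : (1 / 2 : ℝ) < 1)
      refine ⟨n + 1, fun m hm => ?_⟩
      exact lt_of_le_of_lt (hdiam y n _ (hanti y _ _ hm (ha m)) _ (ha (n + 1))) hn
    obtain ⟨x, hx⟩ := cauchySeq_tendsto_of_complete hcau
    refine ⟨x, fun n => hsc (pre y n) (y n) ?_⟩
    refine mem_closure_of_tendsto hx ?_
    filter_upwards [eventually_ge_atTop (n + 1)] with m hm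
    exact hanti y (n + 1) m hm (ha m)
  choose π hπ using hpt
  have huniq : ∀ y x, (∀ n, x ∈ (S (pre y n)).1) → π y = x := by
    intro y x hx
    by_contra hne
    have hpos : 0 < dist (π y) x := dist_pos.2 hne
    obtain ⟨n, hn⟩ := exists_pow_lt_of_lt_one hpos (by norm_num : (1 / 2 : ℝ) < 1)
    exact absurd (hdiam y n _ (hπ y (n + 1)) _ (hx (n + 1))) (not_le_of_gt hn)
  have hN : ∀ (s : List ℕ) (x : X), ∃ n, x ∈ (S s).1 → x ∈ (S (n :: s)).1 := by
    intro s x
    by_cases h : x ∈ (S s).1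
    · rw [← hsU s] at h
      obtain ⟨n, hn⟩ := mem_iUnion.1 h
      exact ⟨n, fun _ => hn⟩
    · exact ⟨0, fun h' => absurd h' h⟩
  choose N hN using hN
  have hlift : ∀ (y0 : ℕ → ℕ) (n : ℕ) (x : X), x ∈ (S (pre y0 n)).1 →
      ∃ y : ℕ → ℕ, (∀ i < n, y i = y0 i) ∧ π y = x := by
    intro y0 n x hx
    let L : ℕ → List ℕ := fun k =>
      Nat.rec [] (fun k l => (if k < n then y0 k else N l x) :: l) k
    set y : ℕ → ℕ := fun k => if k < n then y0 k else N (L k) x with hy
    have hL : ∀ k, L (k + 1) = y k :: L k := fun k => rfl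
    have hpre : ∀ k, pre y k = L k := by
      intro k
      induction k with
      | zero => rfl
      | succ k ih => rw [hL, ← ih]; rfl
    have hyi : ∀ i < n, y i = y0 i := fun i hi => by simp only [hy]; rw [if_pos hi]
    have hlow : ∀ k, k ≤ n → x ∈ (S (pre y k)).1 := by
      intro k hk
      rw [pre_congr (z := y0) fun i hi => hyi i (lt_of_lt_of_le hi hk)]
      exact hanti y0 k n hk hx
    have hall : ∀ k, x ∈ (S (pre y k)).1 := by
      intro k
      rcases le_total k n with hk | hk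
      · exact hlow k hk
      · induction k, hk using Nat.le_induction with
        | base => exact hlow n le_rfl
        | succ k hk ih =>
          have h1 : y k = N (pre y k) x := by
            rw [hpre k]
            simp only [hy]
            rw [if_neg (not_lt_of_ge hk)]
          show x ∈ (S (y k :: pre y k)).1
          rw [h1]
          exact hN _ _ ih
    exact ⟨y, hyi, huniq y x hall⟩
  refine ⟨π, ?_, ?_, ?_⟩
  · rw [Metric.continuous_iff']
    intro y ε hε
    obtain ⟨n, hn⟩ := exists_pow_lt_of_lt_one hε (by norm_num : (1 / 2 : ℝ) < 1)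
    have hm : PiNat.cylinder y (n + 1) ∈ 𝓝 y :=
      (PiNat.isOpen_cylinder (fun _ => ℕ) y (n + 1)).mem_nhds (PiNat.self_mem_cylinder y (n + 1))
    filter_upwards [hm] with z hz
    have e : pre z (n + 1) = pre y (n + 1) := pre_congr fun i hi => hz i hi
    have h1 := hπ z (n + 1)
    rw [e] at h1
    exact lt_of_le_of_lt (hdiam y n _ h1 _ (hπ y (n + 1))) hn
  · intro x
    obtain ⟨y, _, hy⟩ := hlift (fun _ => 0) 0 x (mem_univ _)
    exact ⟨y, hy⟩
  · intro U hU
    rw [isOpen_iff_mem_nhds]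
    rintro _ ⟨y0, hy0, rfl⟩
    obtain ⟨C, ⟨w, n, rfl⟩, h1, h2⟩ :=
      (PiNat.isTopologicalBasis_cylinders (fun _ => ℕ)).exists_subset_of_mem_open hy0 hU
    refine mem_of_superset ((S (pre y0 n)).2.1.mem_nhds (hπ y0 n)) ?_
    intro x hx
    obtain ⟨y, hy, rfl⟩ := hlift y0 n x hx
    refine ⟨y, h2 ?_, rfl⟩
    intro i hi
    rw [hy i hi]
    exact h1 i hi

end Pool.Agent.Q215.SR
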